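import Mathlib

/-!
# One colour: requests on the right and on the left
-/

namespace RD

open Finset

/-- Right requests `A` (to be matched with an element of `Q` at a position `≥`) and left requests
`B` (at a position `≤`). -/
theorem one_colour {ι E : Type*} [DecidableEq ι] [DecidableEq E] [Nonempty E] (A B : Finset ι) (Q : Finset E)
    (y : ι → ℤ) (x : E → ℤ)
    (hR : ∀ τ : ℤ, (A.filter (fun i => τ ≤ y i)).card ≤ (Q.filter (fun q => τ ≤ x q)).card)
    (hL : ∀ τ : ℤ, (B.filter (fun i => y i ≤ τ)).card ≤ (Q.filter (fun q => x q ≤ τ)).card)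
    (hc : A.card + B.card ≤ Q.card) :
    ∃ f g : ι → E, (∀ i ∈ A, f i ∈ Q ∧ y i ≤ x (f i)) ∧ (∀ i ∈ B, g i ∈ Q ∧ x (g i) ≤ y i) ∧
      Set.InjOn f A ∧ Set.InjOn g B ∧ ∀ i ∈ A, ∀ j ∈ B, f i ≠ g j := by
  classical
  let t : (↥A ⊕ ↥B) → Finset E := fun z => match z with
    | Sum.inl i => Q.filter (fun q => y i ≤ x q)
    | Sum.inr j => Q.filter (fun q => x q ≤ y j)
  have hall : ∀ s : Finset (↥A ⊕ ↥B), s.card ≤ (s.biUnion t).card := by
    intro s
    set sA : Finset ↥A := s.toLeft with hsA
    set sB : Finset ↥B := s.toRight with hsB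
    have hcard : s.card = sA.card + sB.card := (Finset.card_toLeft_add_card_toRight (u := s)).symm
    have hmapA : ∀ τ : ℤ, (∀ i ∈ sA, τ ≤ y i) → sA.card ≤ (Q.filter (fun q => τ ≤ x q)).card := by
      intro τ hτ
      refine le_trans ?_ (hR τ)
      rw [← Finset.card_map ⟨Subtype.val, Subtype.val_injective⟩]
      apply Finset.card_le_card
      intro z hz
      simp only [Finset.mem_map, Function.Embedding.coeFn_mk] at hz
      obtain ⟨i, hi, rfl⟩ := hz
      exact Finset.mem_filter.mpr ⟨i.2, hτ i hi⟩
    have hmapB : ∀ τ : ℤ, (∀ i ∈ sB, y i ≤ τ) → sB.card ≤ (Q.filter (fun q => x q ≤ τ)).card := by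
      intro τ hτ
      refine le_trans ?_ (hL τ)
      rw [← Finset.card_map ⟨Subtype.val, Subtype.val_injective⟩]
      apply Finset.card_le_card
      intro z hz
      simp only [Finset.mem_map, Function.Embedding.coeFn_mk] at hz
      obtain ⟨i, hi, rfl⟩ := hz
      exact Finset.mem_filter.mpr ⟨i.2, hτ i hi⟩
    have hnA : ∀ i ∈ sA, Q.filter (fun q => y i ≤ x q) ⊆ s.biUnion t := by
      intro i hi q hq
      rw [Finset.mem_biUnion]
      exact ⟨Sum.inl i, Finset.mem_toLeft.mp hi, hq⟩
    have hnB : ∀ i ∈ sB, Q.filter (fun q => x q ≤ y i) ⊆ s.biUnion t := by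
      intro i hi q hq
      rw [Finset.mem_biUnion]
      exact ⟨Sum.inr i, Finset.mem_toRight.mp hi, hq⟩
    rcases sA.eq_empty_or_nonempty with hA0 | hA0
    · rcases sB.eq_empty_or_nonempty with hB0 | hB0
      · rw [hcard, hA0, hB0]; simp
      · obtain ⟨j, hj, hjm⟩ := Finset.exists_max_image sB (fun i => y i) hB0
        rw [hcard, hA0, Finset.card_empty, zero_add]
        exact (hmapB (y j) hjm).trans (Finset.card_le_card (hnB j hj))
    · obtain ⟨i, hi, him⟩ := Finset.exists_min_image sA (fun i => y i) hA0
      rcases sB.eq_empty_or_nonempty with hB0 | hB0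
      · rw [hcard, hB0, Finset.card_empty, add_zero]
        exact (hmapA (y i) him).trans (Finset.card_le_card (hnA i hi))
      · obtain ⟨j, hj, hjm⟩ := Finset.exists_max_image sB (fun i => y i) hB0
        by_cases hij : y i ≤ y j
        · have hsub : Q ⊆ s.biUnion t := by
            intro q hq
            by_cases hqi : y i ≤ x q
            · exact hnA i hi (Finset.mem_filter.mpr ⟨hq, hqi⟩)
            · exact hnB j hj (Finset.mem_filter.mpr ⟨hq, by omega⟩)
          have h1 : sA.card ≤ A.card := by
            have := Finset.card_le_univ sA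
            simpa using this
          have h2 : sB.card ≤ B.card := by
            have := Finset.card_le_univ sB
            simpa using this
          have h3 := Finset.card_le_card hsub
          omega
        · have hdis : Disjoint (Q.filter (fun q => y i ≤ x q)) (Q.filter (fun q => x q ≤ y j)) := by
            rw [Finset.disjoint_left]
            intro q h1 h2
            have h1' := (Finset.mem_filter.mp h1).2
            have h2' := (Finset.mem_filter.mp h2).2
            omega
          have h1 := Finset.card_le_card (Finset.union_subset (hnA i hi) (hnB j hj))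
          rw [Finset.card_union_of_disjoint hdis] at h1
          have h2 := hmapA (y i) him
          have h3 := hmapB (y j) hjm
          omega
  obtain ⟨F, hFinj, hF⟩ := (Finset.all_card_le_biUnion_card_iff_exists_injective t).mp hall
  obtain ⟨e0⟩ := (inferInstance : Nonempty E)
  refine ⟨fun i => if h : i ∈ A then F (Sum.inl ⟨i, h⟩) else e0,
    fun i => if h : i ∈ B then F (Sum.inr ⟨i, h⟩) else e0, ?_, ?_, ?_, ?_, ?_⟩
  · intro i hi
    have := hF (Sum.inl ⟨i, hi⟩)
    simp only [hi, dif_pos]
    exact Finset.mem_filter.mp this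
  · intro i hi
    have := hF (Sum.inr ⟨i, hi⟩)
    simp only [hi, dif_pos]
    exact Finset.mem_filter.mp this
  · intro i hi j hj hij
    have hi' : i ∈ A := hi
    have hj' : j ∈ A := hj
    simp only [hi', hj', dif_pos] at hij
    have := hFinj hij
    simpa using this
  · intro i hi j hj hij
    have hi' : i ∈ B := hi
    have hj' : j ∈ B := hj
    simp only [hi', hj', dif_pos] at hij
    have := hFinj hij
    simpa using this
  · intro i hi j hj hij
    simp only [hi, hj, dif_pos] at hij
    have := hFinj hij
    simp at this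

end RD
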