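import Mathlib
import Pool.Agent.Helper48.RD.OneColour

/-!
# The linear core (Theorem G)
-/

namespace RD

open Finset

set_option linter.unusedSectionVars false

variable {E : Type*} [DecidableEq E]

/-- right Hall condition with allowed colour sets `R` -/
def RHc (P M : Finset E) (col : E → Fin 3) (x : E → ℤ) (R : E → Finset (Fin 3)) : Prop :=
  ∀ t : Fin 3 → ℤ, (M.filter (fun m => ∀ c ∈ R m, t c ≤ x m)).card ≤
    (P.filter (fun p => t (col p) ≤ x p)).card

/-- left Hall condition -/
def LHc (P M : Finset E) (col : E → Fin 3) (x : E → ℤ) (L : E → Finset (Fin 3)) : Prop :=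
  ∀ t : Fin 3 → ℤ, (M.filter (fun m => ∀ c ∈ L m, x m ≤ t c)).card ≤
    (P.filter (fun p => x p ≤ t (col p))).card

theorem lhc_iff (P M : Finset E) (col : E → Fin 3) (x : E → ℤ) (L : E → Finset (Fin 3)) :
    LHc P M col x L ↔ RHc P M col (fun e => - x e) L := by
  constructor
  · intro h t
    have := h (fun c => - t c)
    simp only [le_neg] at this ⊢
    convert this using 2
  · intro h t
    have := h (fun c => - t c)
    simp only [neg_le_neg_iff] at this ⊢
    exact this

/-- state of a minus letter: unresolved or resolved -/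
def Res (k : Fin 3) (L R : Finset (Fin 3)) : Prop :=
  (L = univ.erase k ∧ R = univ.erase k) ∨
    ∃ u w, u ≠ w ∧ u ≠ k ∧ w ≠ k ∧ L = {u} ∧ R = {w}

theorem Res.symm {k : Fin 3} {L R : Finset (Fin 3)} (h : Res k L R) : Res k R L := by
  rcases h with ⟨h1, h2⟩ | ⟨u, w, h1, h2, h3, h4, h5⟩
  · exact Or.inl ⟨h2, h1⟩
  · exact Or.inr ⟨w, u, h1.symm, h3, h2, h5, h4⟩

theorem rh_fail {P M : Finset E} {col : E → Fin 3} {x : E → ℤ} {R : E → Finset (Fin 3)}
    (hRH : RHc P M col x R) {y : E} {U W : Fin 3} (hRy : R y = {U, W})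
    (hnot : ¬ RHc P M col x (Function.update R y {W})) :
    ∃ t : Fin 3 → ℤ, t W ≤ x y ∧ x y < t U ∧
      (M.filter (fun m => ∀ c ∈ R m, t c ≤ x m)).card = (P.filter (fun p => t (col p) ≤ x p)).card := by
  classical
  unfold RHc at hnot
  push Not at hnot
  obtain ⟨t, ht⟩ := hnot
  refine ⟨t, ?_⟩
  have h0 := hRH t
  set A := M.filter (fun m => ∀ c ∈ R m, t c ≤ x m) with hA
  set A' := M.filter (fun m => ∀ c ∈ Function.update R y {W} m, t c ≤ x m) with hA'
  have hsub : A' ⊆ insert y A := by
    intro m hm
    by_cases hmy : m = y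
    · simp [hmy]
    · rw [hA'] at hm
      simp only [Finset.mem_filter, Function.update_of_ne hmy] at hm
      rw [Finset.mem_insert]
      right
      exact Finset.mem_filter.mpr hm
  have hy : y ∈ A' ∧ y ∉ A := by
    constructor
    · by_contra hy
      have : A' ⊆ A := by
        intro m hm
        rcases Finset.mem_insert.mp (hsub hm) with h | h
        · exact absurd (h ▸ hm) hy
        · exact h
      have := Finset.card_le_card this
      omega
    · intro hy
      have : A' ⊆ A := by
        intro m hm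
        rcases Finset.mem_insert.mp (hsub hm) with h | h
        · exact h ▸ hy
        · exact h
      have := Finset.card_le_card this
      omega
  have hc := Finset.card_le_card hsub
  rw [Finset.card_insert_of_notMem hy.2] at hc
  have h1 := (Finset.mem_filter.mp hy.1)
  have h2 : t W ≤ x y := by
    have := h1.2 W (by simp)
    exact this
  refine ⟨h2, ?_, by omega⟩
  by_contra h3
  push Not at h3
  apply hy.2
  rw [hA, Finset.mem_filter]
  refine ⟨h1.1, ?_⟩
  intro c hc
  rw [hRy] at hc
  simp only [Finset.mem_insert, Finset.mem_singleton] at hc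
  rcases hc with rfl | rfl
  · exact h3
  · exact h2

theorem sub_contra {P M : Finset E} {col : E → Fin 3} {x : E → ℤ} {R : E → Finset (Fin 3)}
    (hRH : RHc P M col x R) {y : E} (hy : y ∈ M) {U W : Fin 3} (hRy : R y = {U, W})
    {t s : Fin 3 → ℤ} (htW : t W ≤ x y) (htU : x y < t U) (hsU : s U ≤ x y) (hsW : x y < s W)
    (ht : (M.filter (fun m => ∀ c ∈ R m, t c ≤ x m)).card =
      (P.filter (fun p => t (col p) ≤ x p)).card)
    (hs : (M.filter (fun m => ∀ c ∈ R m, s c ≤ x m)).card =
      (P.filter (fun p => s (col p) ≤ x p)).card) : False := by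
  have h1 := hRH (fun c => min (t c) (s c))
  have h2 := hRH (fun c => max (t c) (s c))
  have hP : (P.filter (fun p => min (t (col p)) (s (col p)) ≤ x p)).card +
      (P.filter (fun p => max (t (col p)) (s (col p)) ≤ x p)).card =
      (P.filter (fun p => t (col p) ≤ x p)).card + (P.filter (fun p => s (col p) ≤ x p)).card := by
    simp only [Finset.card_filter]
    rw [← Finset.sum_add_distrib, ← Finset.sum_add_distrib]
    refine Finset.sum_congr rfl ?_
    intro p _
    rcases le_total (t (col p)) (s (col p)) with h | h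
    · rw [min_eq_left h, max_eq_right h]
    · rw [min_eq_right h, max_eq_left h, add_comm]
  have hM : (M.filter (fun m => ∀ c ∈ R m, t c ≤ x m)).card +
      (M.filter (fun m => ∀ c ∈ R m, s c ≤ x m)).card <
      (M.filter (fun m => ∀ c ∈ R m, min (t c) (s c) ≤ x m)).card +
      (M.filter (fun m => ∀ c ∈ R m, max (t c) (s c) ≤ x m)).card := by
    simp only [Finset.card_filter]
    rw [← Finset.sum_add_distrib, ← Finset.sum_add_distrib]
    apply Finset.sum_lt_sum
    · intro m _
      by_cases ha : ∀ c ∈ R m, t c ≤ x m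
      · have hmin : ∀ c ∈ R m, min (t c) (s c) ≤ x m := fun c hc => (min_le_left _ _).trans (ha c hc)
        by_cases hb : ∀ c ∈ R m, s c ≤ x m
        · have hmax : ∀ c ∈ R m, max (t c) (s c) ≤ x m := fun c hc => max_le (ha c hc) (hb c hc)
          rw [if_pos ha, if_pos hb, if_pos hmin, if_pos hmax]
        · rw [if_pos ha, if_neg hb, if_pos hmin]
          omega
      · by_cases hb : ∀ c ∈ R m, s c ≤ x m
        · have hmin : ∀ c ∈ R m, min (t c) (s c) ≤ x m :=
            fun c hc => (min_le_right _ _).trans (hb c hc)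
          rw [if_neg ha, if_pos hb, if_pos hmin]
          omega
        · rw [if_neg ha, if_neg hb]
          omega
    · refine ⟨y, hy, ?_⟩
      have ha : ¬ ∀ c ∈ R y, t c ≤ x y := by
        intro h
        have := h U (by rw [hRy]; simp)
        omega
      have hb : ¬ ∀ c ∈ R y, s c ≤ x y := by
        intro h
        have := h W (by rw [hRy]; simp)
        omega
      have hc : ∀ c ∈ R y, min (t c) (s c) ≤ x y := by
        intro c hc
        rw [hRy] at hc
        simp only [Finset.mem_insert, Finset.mem_singleton] at hc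
        rcases hc with rfl | rfl
        · exact (min_le_right _ _).trans hsU
        · exact (min_le_left _ _).trans htW
      rw [if_neg ha, if_neg hb, if_pos hc]
      omega
  omega

/-- dropping a set of colours from a tight threshold -/
theorem drop_colours {P M : Finset E} {col : E → Fin 3} {x : E → ℤ} {R : E → Finset (Fin 3)}
    (hRH : RHc P M col x R) {t : Fin 3 → ℤ}
    (ht : (M.filter (fun m => ∀ c ∈ R m, t c ≤ x m)).card =
      (P.filter (fun p => t (col p) ≤ x p)).card) (C : Finset (Fin 3)) :
    (P.filter (fun p => col p ∈ C ∧ t (col p) ≤ x p)).card ≤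
      (M.filter (fun m => (∃ c ∈ R m, c ∈ C) ∧ ∀ c ∈ R m, t c ≤ x m)).card := by
  classical
  obtain ⟨B, hB⟩ : ∃ B : ℤ, ∀ e ∈ P ∪ M, x e < B := by
    refine ⟨∑ e ∈ P ∪ M, |x e| + 1, ?_⟩
    intro e he
    have h1 : |x e| ≤ ∑ e ∈ P ∪ M, |x e| :=
      Finset.single_le_sum (f := fun e => |x e|) (fun _ _ => abs_nonneg _) he
    have h2 := le_abs_self (x e)
    omega
  have h1 := hRH (fun c => if c ∈ C then B else t c)
  have hP : (P.filter (fun p => t (col p) ≤ x p)).card =
      (P.filter (fun p => (if col p ∈ C then B else t (col p)) ≤ x p)).card +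
      (P.filter (fun p => col p ∈ C ∧ t (col p) ≤ x p)).card := by
    simp only [Finset.card_filter]
    rw [← Finset.sum_add_distrib]
    refine Finset.sum_congr rfl ?_
    intro p hp
    have hxB := hB p (Finset.mem_union_left _ hp)
    by_cases hC : col p ∈ C
    · simp only [hC, if_true, true_and]
      have : ¬ B ≤ x p := by omega
      simp [this]
    · simp [hC]
  have hM : (M.filter (fun m => ∀ c ∈ R m, t c ≤ x m)).card ≤
      (M.filter (fun m => ∀ c ∈ R m, (if c ∈ C then B else t c) ≤ x m)).card +
      (M.filter (fun m => (∃ c ∈ R m, c ∈ C) ∧ ∀ c ∈ R m, t c ≤ x m)).card := by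
    simp only [Finset.card_filter]
    rw [← Finset.sum_add_distrib]
    refine Finset.sum_le_sum ?_
    intro m hm
    by_cases ha : ∀ c ∈ R m, t c ≤ x m
    · by_cases hC : ∃ c ∈ R m, c ∈ C
      · rw [if_pos ha, if_pos (show (∃ c ∈ R m, c ∈ C) ∧ ∀ c ∈ R m, t c ≤ x m from ⟨hC, ha⟩)]
        omega
      · have : ∀ c ∈ R m, (if c ∈ C then B else t c) ≤ x m := by
          intro c hc
          have : c ∉ C := fun h => hC ⟨c, hc, h⟩
          rw [if_neg this]
          exact ha c hc
        rw [if_pos ha, if_pos this]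
        omega
    · rw [if_neg ha]
      omega
  have h2 : (M.filter (fun m => ∀ c ∈ R m, (if c ∈ C then B else t c) ≤ x m)).card ≤
      (P.filter (fun p => (if col p ∈ C then B else t (col p)) ≤ x p)).card := h1
  omega

theorem fin3 (k U V W : Fin 3) (h1 : U ≠ V) (h2 : U ≠ W) (h3 : V ≠ W) : k = U ∨ k = V ∨ k = W := by
  revert k U V W; decide

/-- If `t` is tight for the right condition, then dropping is fine; mirrored version. -/
theorem drop_colours_left {P M : Finset E} {col : E → Fin 3} {x : E → ℤ}
    {L : E → Finset (Fin 3)} (hLH : LHc P M col x L) {t : Fin 3 → ℤ}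
    (ht : (M.filter (fun m => ∀ c ∈ L m, x m ≤ t c)).card =
      (P.filter (fun p => x p ≤ t (col p))).card) (C : Finset (Fin 3)) :
    (P.filter (fun p => col p ∈ C ∧ x p ≤ t (col p))).card ≤
      (M.filter (fun m => (∃ c ∈ L m, c ∈ C) ∧ ∀ c ∈ L m, x m ≤ t c)).card := by
  have h1 := (lhc_iff P M col x L).mp hLH
  have h2 := drop_colours (t := fun c => - t c) h1 (by simpa only [neg_le_neg_iff] using ht) C
  simpa only [neg_le_neg_iff] using h2

theorem block_contra {P M : Finset E} {col : E → Fin 3} {x : E → ℤ} {L R : E → Finset (Fin 3)}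
    (hbal : ∀ c, (P.filter (fun p => col p = c)).card = (M.filter (fun m => col m ≠ c)).card)
    (hRes : ∀ m ∈ M, Res (col m) (L m) (R m))
    (hRH : RHc P M col x R) (hLH : LHc P M col x L)
    {y : E} (hy : y ∈ M) (hyL : L y = univ.erase (col y)) (hyR : R y = univ.erase (col y))
    {U W : Fin 3} (hUW : U ≠ W) (hU : U ≠ col y) (hW : W ≠ col y)
    {t s : Fin 3 → ℤ} (htW : t W ≤ x y) (htU : x y < t U) (hsW : x y ≤ s W) (hsU : s U < x y)
    (ht : (M.filter (fun m => ∀ c ∈ R m, t c ≤ x m)).card =
      (P.filter (fun p => t (col p) ≤ x p)).card)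
    (hs : (M.filter (fun m => ∀ c ∈ L m, x m ≤ s c)).card =
      (P.filter (fun p => x p ≤ s (col p))).card) : False := by
  classical
  -- the dropped inequalities
  have key : ∀ C : Finset (Fin 3), U ∉ C → (∀ c ∈ C, t c ≤ s c) →
      (∀ m ∈ M, ∀ b : ℕ, b = (if (∃ c ∈ R m, c ∈ C) ∧ ∀ c ∈ R m, t c ≤ x m then 1 else 0) +
        (if (∃ c ∈ L m, c ∈ C) ∧ ∀ c ∈ L m, x m ≤ s c then 1 else 0) →
        b ≤ ∑ c ∈ C, if col m ≠ c then 1 else 0) →
      (∑ c ∈ C, if col y ≠ c then 1 else 0) ≠ 0 → False := by
    intro C hUC htC hpt hy0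
    have h1 := drop_colours hRH ht C
    have h2 := drop_colours_left hLH hs C
    have h3 : (P.filter (fun p => col p ∈ C)).card ≤
        (P.filter (fun p => col p ∈ C ∧ t (col p) ≤ x p)).card +
        (P.filter (fun p => col p ∈ C ∧ x p ≤ s (col p))).card := by
      simp only [Finset.card_filter]
      rw [← Finset.sum_add_distrib]
      refine Finset.sum_le_sum ?_
      intro p _
      by_cases hC : col p ∈ C
      · have := htC _ hC
        by_cases h4 : t (col p) ≤ x p
        · simp [hC, h4]
        · have : x p ≤ s (col p) := by omega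
          simp [hC, this]
      · simp [hC]
    have h4 : (P.filter (fun p => col p ∈ C)).card = ∑ c ∈ C, (M.filter (fun m => col m ≠ c)).card := by
      rw [← Finset.sum_congr rfl (fun c _ => hbal c)]
      rw [Finset.card_eq_sum_card_fiberwise (f := col) (t := C)]
      · refine Finset.sum_congr rfl ?_
        intro c hc
        congr 1
        ext p
        simp only [Finset.mem_filter]
        constructor
        · rintro ⟨⟨h5, _⟩, h6⟩; exact ⟨h5, h6⟩
        · rintro ⟨h5, h6⟩; exact ⟨⟨h5, h6 ▸ hc⟩, h6⟩
      · intro p hp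
        exact (Finset.mem_filter.mp hp).2
    have h5 : ∑ c ∈ C, (M.filter (fun m => col m ≠ c)).card =
        ∑ m ∈ M, ∑ c ∈ C, if col m ≠ c then 1 else 0 := by
      simp only [Finset.card_filter]
      rw [Finset.sum_comm]
    have h6 : (M.filter (fun m => (∃ c ∈ R m, c ∈ C) ∧ ∀ c ∈ R m, t c ≤ x m)).card +
        (M.filter (fun m => (∃ c ∈ L m, c ∈ C) ∧ ∀ c ∈ L m, x m ≤ s c)).card <
        ∑ m ∈ M, ∑ c ∈ C, if col m ≠ c then 1 else 0 := by
      simp only [Finset.card_filter]
      rw [← Finset.sum_add_distrib]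
      apply Finset.sum_lt_sum
      · intro m hm
        exact hpt m hm _ rfl
      · refine ⟨y, hy, ?_⟩
        have ha : ¬ ((∃ c ∈ R y, c ∈ C) ∧ ∀ c ∈ R y, t c ≤ x y) := by
          rintro ⟨_, h⟩
          have := h U (by rw [hyR]; simp [hU])
          omega
        have hb : ¬ ((∃ c ∈ L y, c ∈ C) ∧ ∀ c ∈ L y, x y ≤ s c) := by
          rintro ⟨_, h⟩
          have := h U (by rw [hyL]; simp [hU])
          omega
        rw [if_neg ha, if_neg hb]
        omega
    omega
  have hUboth : ∀ m ∈ M, U ∈ R m → U ∈ L m → (∀ c ∈ R m, t c ≤ x m) → (∀ c ∈ L m, x m ≤ s c) →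
      False := by
    intro m _ h1 h2 h3 h4
    have := h3 U h1
    have := h4 U h2
    omega
  set V := col y with hV
  by_cases hVc : t V ≤ s V
  · refine key {V, W} (by simp [hU, hUW]) ?_ ?_ ?_
    · intro c hc
      simp only [Finset.mem_insert, Finset.mem_singleton] at hc
      rcases hc with rfl | rfl
      · exact hVc
      · omega
    · intro m hm b hb
      rw [Finset.sum_pair hW.symm]
      rcases fin3 (col m) U V W hU hUW hW.symm with h | h | h
      · rw [h, if_pos hU, if_pos hUW]
        rw [hb]
        split_ifs <;> omega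
      · -- col m = V
        rw [h, if_neg (by simp), if_pos hW.symm]
        rw [hb]
        by_contra hcon
        have ha : (∃ c ∈ R m, c ∈ ({V, W} : Finset (Fin 3))) ∧ ∀ c ∈ R m, t c ≤ x m := by
          by_contra h'
          rw [if_neg h'] at hcon
          split_ifs at hcon <;> omega
        have hb' : (∃ c ∈ L m, c ∈ ({V, W} : Finset (Fin 3))) ∧ ∀ c ∈ L m, x m ≤ s c := by
          by_contra h'
          rw [if_neg h'] at hcon
          split_ifs at hcon <;> omega
        rcases hRes m hm with ⟨hl, hr⟩ | ⟨u, w, h1, h2, h3, h4, h5⟩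
        · exact hUboth m hm (by rw [hr, h]; simp [hU]) (by rw [hl, h]; simp [hU]) ha.2 hb'.2
        · obtain ⟨⟨c, hc1, hc2⟩, _⟩ := ha
          obtain ⟨⟨d, hd1, hd2⟩, _⟩ := hb'
          rw [h5] at hc1
          rw [h4] at hd1
          simp only [Finset.mem_singleton] at hc1 hd1
          subst hc1; subst hd1
          simp only [Finset.mem_insert, Finset.mem_singleton] at hc2 hd2
          rw [h] at h2 h3
          rcases hc2 with h6 | h6
          · exact h3 h6
          · rcases hd2 with h7 | h7
            · exact h2 h7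
            · exact h1 (h7.trans h6.symm)
      · -- col m = W
        rw [h, if_pos hW, if_neg (by simp)]
        rw [hb]
        by_contra hcon
        have ha : (∃ c ∈ R m, c ∈ ({V, W} : Finset (Fin 3))) ∧ ∀ c ∈ R m, t c ≤ x m := by
          by_contra h'
          rw [if_neg h'] at hcon
          split_ifs at hcon <;> omega
        have hb' : (∃ c ∈ L m, c ∈ ({V, W} : Finset (Fin 3))) ∧ ∀ c ∈ L m, x m ≤ s c := by
          by_contra h'
          rw [if_neg h'] at hcon
          split_ifs at hcon <;> omega
        rcases hRes m hm with ⟨hl, hr⟩ | ⟨u, w, h1, h2, h3, h4, h5⟩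
        · exact hUboth m hm (by rw [hr, h]; simp [hUW]) (by rw [hl, h]; simp [hUW]) ha.2 hb'.2
        · obtain ⟨⟨c, hc1, hc2⟩, _⟩ := ha
          obtain ⟨⟨d, hd1, hd2⟩, _⟩ := hb'
          rw [h5] at hc1
          rw [h4] at hd1
          simp only [Finset.mem_singleton] at hc1 hd1
          subst hc1; subst hd1
          simp only [Finset.mem_insert, Finset.mem_singleton] at hc2 hd2
          rw [h] at h2 h3
          rcases hc2 with h6 | h6
          · rcases hd2 with h7 | h7
            · exact h1 (h7.trans h6.symm)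
            · exact h2 h7
          · exact h3 h6
    · rw [Finset.sum_pair hW.symm, if_neg (by simp), if_pos hW.symm]
      omega
  · refine key {W} (by simp [hUW]) ?_ ?_ ?_
    · intro c hc
      simp only [Finset.mem_singleton] at hc
      subst hc
      omega
    · intro m hm b hb
      rw [Finset.sum_singleton, hb]
      by_cases ha : (∃ c ∈ R m, c ∈ ({W} : Finset (Fin 3))) ∧ ∀ c ∈ R m, t c ≤ x m
      · have hWR : W ∈ R m := by
          obtain ⟨⟨c, hc1, hc2⟩, _⟩ := ha
          simp only [Finset.mem_singleton] at hc2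
          exact hc2 ▸ hc1
        have hcW : col m ≠ W := by
          rcases hRes m hm with ⟨hl, hr⟩ | ⟨u, w, h1, h2, h3, h4, h5⟩
          · rw [hr] at hWR; exact (Finset.ne_of_mem_erase hWR).symm
          · rw [h5] at hWR
            simp only [Finset.mem_singleton] at hWR
            rw [hWR]; exact h3.symm
        have hb' : ¬ ((∃ c ∈ L m, c ∈ ({W} : Finset (Fin 3))) ∧ ∀ c ∈ L m, x m ≤ s c) := by
          intro hb'
          have hWL : W ∈ L m := by
            obtain ⟨⟨c, hc1, hc2⟩, _⟩ := hb'
            simp only [Finset.mem_singleton] at hc2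
            exact hc2 ▸ hc1
          rcases hRes m hm with ⟨hl, hr⟩ | ⟨u, w, h1, h2, h3, h4, h5⟩
          · rcases fin3 (col m) U V W hU hUW hW.symm with h | h | h
            · have h7 := ha.2 V (by rw [hr, h]; simp [hU.symm])
              have h8 := hb'.2 V (by rw [hl, h]; simp [hU.symm])
              omega
            · exact hUboth m hm (by rw [hr, h]; simp [hU]) (by rw [hl, h]; simp [hU]) ha.2 hb'.2
            · exact hcW h
          · rw [h4] at hWL
            rw [h5] at hWR
            simp only [Finset.mem_singleton] at hWL hWR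
            exact h1 (hWL.symm.trans hWR)
        rw [if_pos ha, if_neg hb', if_pos hcW]
      · by_cases hb' : (∃ c ∈ L m, c ∈ ({W} : Finset (Fin 3))) ∧ ∀ c ∈ L m, x m ≤ s c
        · have hWL : W ∈ L m := by
            obtain ⟨⟨c, hc1, hc2⟩, _⟩ := hb'
            simp only [Finset.mem_singleton] at hc2
            exact hc2 ▸ hc1
          have hcW : col m ≠ W := by
            rcases hRes m hm with ⟨hl, hr⟩ | ⟨u, w, h1, h2, h3, h4, h5⟩
            · rw [hl] at hWL; exact (Finset.ne_of_mem_erase hWL).symm
            · rw [h4] at hWL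
              simp only [Finset.mem_singleton] at hWL
              rw [hWL]; exact h2.symm
          rw [if_neg ha, if_pos hb', if_pos hcW]
        · rw [if_neg ha, if_neg hb']
          omega
    · rw [Finset.sum_singleton, if_pos hW.symm]
      omega

theorem lh_fail {P M : Finset E} {col : E → Fin 3} {x : E → ℤ} {L : E → Finset (Fin 3)}
    (hLH : LHc P M col x L) {y : E} {U W : Fin 3} (hLy : L y = {U, W})
    (hnot : ¬ LHc P M col x (Function.update L y {W})) :
    ∃ t : Fin 3 → ℤ, x y ≤ t W ∧ t U < x y ∧
      (M.filter (fun m => ∀ c ∈ L m, x m ≤ t c)).card = (P.filter (fun p => x p ≤ t (col p))).card := by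
  have h1 := (lhc_iff P M col x L).mp hLH
  have h2 : ¬ RHc P M col (fun e => - x e) (Function.update L y {W}) := by
    rw [← lhc_iff]; exact hnot
  obtain ⟨t, h3, h4, h5⟩ := rh_fail h1 hLy h2
  refine ⟨fun c => - t c, by show x y ≤ - t W; omega, by show - t U < x y; omega, ?_⟩
  simpa only [le_neg] using h5

/-- one resolution step -/
theorem resolve {P M : Finset E} {col : E → Fin 3} {x : E → ℤ} {L R : E → Finset (Fin 3)}
    (hbal : ∀ c, (P.filter (fun p => col p = c)).card = (M.filter (fun m => col m ≠ c)).card)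
    (hRes : ∀ m ∈ M, Res (col m) (L m) (R m))
    (hRH : RHc P M col x R) (hLH : LHc P M col x L)
    {y : E} (hy : y ∈ M) (hyL : L y = univ.erase (col y)) (hyR : R y = univ.erase (col y))
    {U W : Fin 3} (hUW : U ≠ W) (hU : U ≠ col y) (hW : W ≠ col y) :
    (RHc P M col x (Function.update R y {W}) ∧ LHc P M col x (Function.update L y {U})) ∨
    (RHc P M col x (Function.update R y {U}) ∧ LHc P M col x (Function.update L y {W})) := by
  have hset : (univ.erase (col y) : Finset (Fin 3)) = {U, W} := by
    ext c
    simp only [Finset.mem_erase, Finset.mem_univ, and_true, Finset.mem_insert,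
      Finset.mem_singleton]
    rcases fin3 c U W (col y) hUW hU hW with h | h | h
    · simp [h, hU]
    · simp [h, hW]
    · simp [h, hU.symm, hW.symm]
  have hset' : (univ.erase (col y) : Finset (Fin 3)) = {W, U} := by
    rw [hset, Finset.pair_comm]
  by_contra hcon
  push Not at hcon
  obtain ⟨h1, h2⟩ := hcon
  by_cases r1 : RHc P M col x (Function.update R y {W})
  · obtain ⟨s, s1, s2, s3⟩ := lh_fail (U := W) (W := U) hLH (hyL.trans hset') (h1 r1)
    -- x y ≤ s U, s W < x y
    by_cases r2 : RHc P M col x (Function.update R y {U})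
    · obtain ⟨t, t1, t2, t3⟩ := lh_fail (U := U) (W := W) hLH (hyL.trans hset) (h2 r2)
      -- both left tight: submodularity on the left
      have hl := (lhc_iff P M col x L).mp hLH
      refine sub_contra (x := fun e => - x e) (R := L) hl hy (U := U) (W := W) (hyL.trans hset)
        (t := fun c => - t c) (s := fun c => - s c) ?_ ?_ ?_ ?_ ?_ ?_
      · show - t W ≤ - x y; omega
      · show - x y < - t U; omega
      · show - s U ≤ - x y; omega
      · show - x y < - s W; omega
      · simpa only [neg_le_neg_iff] using t3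
      · simpa only [neg_le_neg_iff] using s3
    · obtain ⟨t, t1, t2, t3⟩ := rh_fail (U := W) (W := U) hRH (hyR.trans hset') r2
      -- t U ≤ x y < t W
      exact block_contra hbal hRes hRH hLH hy hyL hyR (U := W) (W := U) hUW.symm hW hU
        t1 t2 s1 s2 t3 s3
  · obtain ⟨t, t1, t2, t3⟩ := rh_fail (U := U) (W := W) hRH (hyR.trans hset) r1
    by_cases r2 : RHc P M col x (Function.update R y {U})
    · obtain ⟨s, s1, s2, s3⟩ := lh_fail (U := U) (W := W) hLH (hyL.trans hset) (h2 r2)
      exact block_contra hbal hRes hRH hLH hy hyL hyR (U := U) (W := W) hUW hU hW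
        t1 t2 s1 s2 t3 s3
    · obtain ⟨s, s1, s2, s3⟩ := rh_fail (U := W) (W := U) hRH (hyR.trans hset') r2
      exact sub_contra hRH hy (U := U) (W := W) (hyR.trans hset) t1 t2 s1 s2 t3 s3

/-- two other colours -/
theorem two_others (k : Fin 3) : ∃ U W : Fin 3, U ≠ W ∧ U ≠ k ∧ W ≠ k := by
  revert k; decide

/-- all letters can be resolved -/
theorem resolve_all {P M : Finset E} {col : E → Fin 3} {x : E → ℤ}
    (hbal : ∀ c, (P.filter (fun p => col p = c)).card = (M.filter (fun m => col m ≠ c)).card) :
    ∀ (n : ℕ) (L R : E → Finset (Fin 3)), (∀ m ∈ M, Res (col m) (L m) (R m)) →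
      RHc P M col x R → LHc P M col x L →
      (M.filter (fun m => R m = univ.erase (col m))).card = n →
      ∃ l r : E → Fin 3, (∀ m ∈ M, l m ≠ r m ∧ l m ≠ col m ∧ r m ≠ col m) ∧
        RHc P M col x (fun m => {r m}) ∧ LHc P M col x (fun m => {l m}) := by
  intro n
  induction n with
  | zero =>
    intro L R hRes hRH hLH hn
    have hres : ∀ m ∈ M, ∃ u w, u ≠ w ∧ u ≠ col m ∧ w ≠ col m ∧ L m = {u} ∧ R m = {w} := by
      intro m hm
      rcases hRes m hm with h | h
      · exfalso
        rw [Finset.card_eq_zero, Finset.filter_eq_empty_iff] at hn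
        exact hn hm h.2
      · exact h
    choose! l r hlr using hres
    refine ⟨l, r, fun m hm => ⟨(hlr m hm).1, (hlr m hm).2.1, (hlr m hm).2.2.1⟩, ?_, ?_⟩
    · intro t
      have := hRH t
      have h2 : (M.filter (fun m => ∀ c ∈ R m, t c ≤ x m)) =
          M.filter (fun m => ∀ c ∈ ({r m} : Finset (Fin 3)), t c ≤ x m) := by
        apply Finset.filter_congr
        intro m hm
        rw [(hlr m hm).2.2.2.2]
      rw [h2] at this
      exact this
    · intro t
      have := hLH t
      have h2 : (M.filter (fun m => ∀ c ∈ L m, x m ≤ t c)) =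
          M.filter (fun m => ∀ c ∈ ({l m} : Finset (Fin 3)), x m ≤ t c) := by
        apply Finset.filter_congr
        intro m hm
        rw [(hlr m hm).2.2.2.1]
      rw [h2] at this
      exact this
  | succ n ih =>
    intro L R hRes hRH hLH hn
    have hne : (M.filter (fun m => R m = univ.erase (col m))).Nonempty := by
      rw [← Finset.card_pos]; omega
    obtain ⟨y, hy⟩ := hne
    have hyM := (Finset.mem_filter.mp hy).1
    have hyR := (Finset.mem_filter.mp hy).2
    have hyL : L y = univ.erase (col y) := by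
      rcases hRes y hyM with h | ⟨u, w, h1, h2, h3, h4, h5⟩
      · exact h.1
      · exfalso
        have h6 := hyR.symm.trans h5
        have : u ∈ ({w} : Finset (Fin 3)) := by rw [← h6]; simp [h2]
        exact h1 (Finset.mem_singleton.mp this)
    obtain ⟨U, W, hUW, hU, hW⟩ := two_others (col y)
    have hstep : ∀ A B : Fin 3, A ≠ B → A ≠ col y → B ≠ col y →
        RHc P M col x (Function.update R y {B}) → LHc P M col x (Function.update L y {A}) →
        ∃ l r : E → Fin 3, (∀ m ∈ M, l m ≠ r m ∧ l m ≠ col m ∧ r m ≠ col m) ∧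
        RHc P M col x (fun m => {r m}) ∧ LHc P M col x (fun m => {l m}) := by
      intro A B hAB hA hB h1 h2
      refine ih (Function.update L y {A}) (Function.update R y {B}) ?_ h1 h2 ?_
      · intro m hm
        by_cases hmy : m = y
        · subst hmy
          rw [Function.update_self, Function.update_self]
          exact Or.inr ⟨A, B, hAB, hA, hB, rfl, rfl⟩
        · rw [Function.update_of_ne hmy, Function.update_of_ne hmy]
          exact hRes m hm
      · have h3 : (M.filter (fun m => Function.update R y {B} m = univ.erase (col m))) =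
            (M.filter (fun m => R m = univ.erase (col m))).erase y := by
          ext m
          simp only [Finset.mem_filter, Finset.mem_erase]
          by_cases hmy : m = y
          · subst hmy
            simp only [Function.update_self, ne_eq, not_true_eq_false, false_and, iff_false,
              not_and]
            intro _ h4
            have : A ∈ ({B} : Finset (Fin 3)) := by rw [h4]; simp [hA]
            exact hAB (Finset.mem_singleton.mp this)
          · simp only [Function.update_of_ne hmy, ne_eq, hmy, not_false_eq_true, true_and]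
        rw [h3, Finset.card_erase_of_mem hy, hn]
        rfl
    rcases resolve hbal hRes hRH hLH hyM hyL hyR hUW hU hW with ⟨h1, h2⟩ | ⟨h1, h2⟩
    · exact hstep U W hUW hU hW h1 h2
    · exact hstep W U hUW.symm hW hU h1 h2

/-- **Theorem G**: the linear core. -/
theorem linear_core [Nonempty E] (P M : Finset E) (col : E → Fin 3) (x : E → ℤ)
    (hbal : ∀ c, (P.filter (fun p => col p = c)).card = (M.filter (fun m => col m ≠ c)).card)
    (hRH : ∀ t : Fin 3 → ℤ, (M.filter (fun m => ∀ c, c ≠ col m → t c ≤ x m)).card ≤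
      (P.filter (fun p => t (col p) ≤ x p)).card)
    (hLH : ∀ t : Fin 3 → ℤ, (M.filter (fun m => ∀ c, c ≠ col m → x m ≤ t c)).card ≤
      (P.filter (fun p => x p ≤ t (col p))).card) :
    ∃ L R : E → E, (∀ m ∈ M, L m ∈ P ∧ R m ∈ P ∧ x (L m) ≤ x m ∧ x m ≤ x (R m) ∧
        col (L m) ≠ col m ∧ col (R m) ≠ col m ∧ col (L m) ≠ col (R m)) ∧
      (∀ m ∈ M, ∀ m' ∈ M, L m ≠ R m') ∧ Set.InjOn L M ∧ Set.InjOn R M := by
  classical
  obtain ⟨l, r, hlr, hR, hL⟩ := resolve_all (x := x) hbal _ (fun m => univ.erase (col m))
    (fun m => univ.erase (col m)) (fun m _ => Or.inl ⟨rfl, rfl⟩)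
    (by
      intro t
      have := hRH t
      simpa only [Finset.mem_erase, Finset.mem_univ, and_true] using this)
    (by
      intro t
      have := hLH t
      simpa only [Finset.mem_erase, Finset.mem_univ, and_true] using this) rfl
  obtain ⟨B, hB⟩ : ∃ B : ℤ, ∀ e ∈ P ∪ M, |x e| < B := by
    refine ⟨∑ e ∈ P ∪ M, |x e| + 1, ?_⟩
    intro e he
    have h1 : |x e| ≤ ∑ e ∈ P ∪ M, |x e| :=
      Finset.single_le_sum (f := fun e => |x e|) (fun _ _ => abs_nonneg _) he
    omega
  have hone : ∀ c : Fin 3, ∃ f g : E → E,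
      (∀ i ∈ M.filter (fun m => r m = c), f i ∈ P.filter (fun p => col p = c) ∧ x i ≤ x (f i)) ∧
      (∀ i ∈ M.filter (fun m => l m = c), g i ∈ P.filter (fun p => col p = c) ∧ x (g i) ≤ x i) ∧
      Set.InjOn f (M.filter (fun m => r m = c)) ∧ Set.InjOn g (M.filter (fun m => l m = c)) ∧
      ∀ i ∈ M.filter (fun m => r m = c), ∀ j ∈ M.filter (fun m => l m = c), f i ≠ g j := by
    intro c
    apply one_colour
    · intro τ
      have h1 := hR (fun d => if d = c then τ else B)
      refine le_trans (Finset.card_le_card ?_) (h1.trans (Finset.card_le_card ?_))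
      · intro m hm
        simp only [Finset.mem_filter] at hm
        simp only [Finset.mem_filter, Finset.mem_singleton, forall_eq]
        refine ⟨hm.1.1, ?_⟩
        rw [if_pos hm.1.2]
        exact hm.2
      · intro p hp
        simp only [Finset.mem_filter] at hp
        have h2 := abs_lt.mp (hB p (Finset.mem_union_left _ hp.1))
        by_cases hc : col p = c
        · rw [if_pos hc] at hp
          simp only [Finset.mem_filter]
          exact ⟨⟨hp.1, hc⟩, hp.2⟩
        · rw [if_neg hc] at hp
          omega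
    · intro τ
      have h1 := hL (fun d => if d = c then τ else -B)
      refine le_trans (Finset.card_le_card ?_) (h1.trans (Finset.card_le_card ?_))
      · intro m hm
        simp only [Finset.mem_filter] at hm
        simp only [Finset.mem_filter, Finset.mem_singleton, forall_eq]
        refine ⟨hm.1.1, ?_⟩
        rw [if_pos hm.1.2]
        exact hm.2
      · intro p hp
        simp only [Finset.mem_filter] at hp
        have h2 := abs_lt.mp (hB p (Finset.mem_union_left _ hp.1))
        by_cases hc : col p = c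
        · rw [if_pos hc] at hp
          simp only [Finset.mem_filter]
          exact ⟨⟨hp.1, hc⟩, hp.2⟩
        · rw [if_neg hc] at hp
          omega
    · rw [hbal c]
      rw [← Finset.card_union_of_disjoint]
      · apply Finset.card_le_card
        intro m hm
        simp only [Finset.mem_union, Finset.mem_filter] at hm ⊢
        rcases hm with ⟨h1, h2⟩ | ⟨h1, h2⟩
        · exact ⟨h1, fun h => (hlr m h1).2.2 (h2.trans h.symm)⟩
        · exact ⟨h1, fun h => (hlr m h1).2.1 (h2.trans h.symm)⟩
      · rw [Finset.disjoint_left]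
        intro m h1 h2
        simp only [Finset.mem_filter] at h1 h2
        exact (hlr m h1.1).1 (h2.2.trans h1.2.symm)
  choose f g hf hg hfi hgi hfg using hone
  have hRm : ∀ m ∈ M, m ∈ M.filter (fun m' => r m' = r m) := fun m hm =>
    Finset.mem_filter.mpr ⟨hm, rfl⟩
  have hLm : ∀ m ∈ M, m ∈ M.filter (fun m' => l m' = l m) := fun m hm =>
    Finset.mem_filter.mpr ⟨hm, rfl⟩
  have hcR : ∀ m ∈ M, col (f (r m) m) = r m := fun m hm =>
    (Finset.mem_filter.mp (hf (r m) m (hRm m hm)).1).2
  have hcL : ∀ m ∈ M, col (g (l m) m) = l m := fun m hm =>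
    (Finset.mem_filter.mp (hg (l m) m (hLm m hm)).1).2
  refine ⟨fun m => g (l m) m, fun m => f (r m) m, ?_, ?_, ?_, ?_⟩
  · intro m hm
    refine ⟨(Finset.mem_filter.mp (hg (l m) m (hLm m hm)).1).1,
      (Finset.mem_filter.mp (hf (r m) m (hRm m hm)).1).1, (hg (l m) m (hLm m hm)).2,
      (hf (r m) m (hRm m hm)).2, ?_, ?_, ?_⟩
    · show col (g (l m) m) ≠ col m
      rw [hcL m hm]; exact (hlr m hm).2.1
    · show col (f (r m) m) ≠ col m
      rw [hcR m hm]; exact (hlr m hm).2.2
    · show col (g (l m) m) ≠ col (f (r m) m)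
      rw [hcL m hm, hcR m hm]; exact (hlr m hm).1
  · intro m hm m' hm' heq
    have heq' : g (l m) m = f (r m') m' := heq
    have hc : l m = r m' := by rw [← hcL m hm, heq', hcR m' hm']
    have h1 : m ∈ M.filter (fun e => l e = r m') := Finset.mem_filter.mpr ⟨hm, hc⟩
    rw [hc] at heq'
    exact hfg (r m') m' (hRm m' hm') m h1 heq'.symm
  · intro m hm m' hm' heq
    have hm1 : m ∈ M := hm
    have hm2 : m' ∈ M := hm'
    have heq' : g (l m) m = g (l m') m' := heq
    have hc : l m = l m' := by rw [← hcL m hm1, heq', hcL m' hm2]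
    rw [hc] at heq'
    exact hgi (l m') (Finset.mem_coe.mpr (Finset.mem_filter.mpr ⟨hm1, hc⟩))
      (Finset.mem_coe.mpr (hLm m' hm2)) heq'
  · intro m hm m' hm' heq
    have hm1 : m ∈ M := hm
    have hm2 : m' ∈ M := hm'
    have heq' : f (r m) m = f (r m') m' := heq
    have hc : r m = r m' := by rw [← hcR m hm1, heq', hcR m' hm2]
    rw [hc] at heq'
    exact hfi (r m') (Finset.mem_coe.mpr (Finset.mem_filter.mpr ⟨hm1, hc⟩))
      (Finset.mem_coe.mpr (hRm m' hm2)) heq'

/-- Theorem G with sorted and clamped thresholds. -/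
theorem linear_core' [Nonempty E] (P M : Finset E) (col : E → Fin 3) (x : E → ℤ) (lo hi : ℤ)
    (hx : ∀ e ∈ P ∪ M, lo ≤ x e ∧ x e < hi)
    (hbal : ∀ c, (P.filter (fun p => col p = c)).card = (M.filter (fun m => col m ≠ c)).card)
    (hRH : ∀ (Z : Fin 3) (s t : ℤ), lo ≤ s → s ≤ t → t ≤ hi →
      (M.filter (fun m => if col m = Z then s ≤ x m else t ≤ x m)).card ≤
      (P.filter (fun p => if col p = Z then t ≤ x p else s ≤ x p)).card)
    (hLH : ∀ (Z : Fin 3) (s t : ℤ), s ≤ hi - 1 → t ≤ s → lo - 1 ≤ t →
      (M.filter (fun m => if col m = Z then x m ≤ s else x m ≤ t)).card ≤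
      (P.filter (fun p => if col p = Z then x p ≤ t else x p ≤ s)).card) :
    ∃ L R : E → E, (∀ m ∈ M, L m ∈ P ∧ R m ∈ P ∧ x (L m) ≤ x m ∧ x m ≤ x (R m) ∧
        col (L m) ≠ col m ∧ col (R m) ≠ col m ∧ col (L m) ≠ col (R m)) ∧
      (∀ m ∈ M, ∀ m' ∈ M, L m ≠ R m') ∧ Set.InjOn L M ∧ Set.InjOn R M := by
  rcases (P ∪ M).eq_empty_or_nonempty with hemp | ⟨e0, he0⟩
  · have hM : M = ∅ := by
      rw [Finset.union_eq_empty] at hemp; exact hemp.2
    refine ⟨id, id, ?_, ?_, ?_, ?_⟩
    · intro m hm; rw [hM] at hm; simp at hm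
    · intro m hm; rw [hM] at hm; simp at hm
    · rw [hM]; simp
    · rw [hM]; simp
  have hlh : lo < hi := by
    have := hx e0 he0
    omega
  apply linear_core P M col x hbal
  · intro t
    obtain ⟨Z, -, hZ⟩ := Finset.exists_max_image (univ : Finset (Fin 3)) t ⟨0, by simp⟩
    obtain ⟨Y, hYm, hY⟩ := Finset.exists_max_image (univ.erase Z : Finset (Fin 3)) t (by
      obtain ⟨U, W, _, hU, _⟩ := two_others Z
      exact ⟨U, by simp [hU]⟩)
    have hYZ : t Y ≤ t Z := hZ Y (by simp)
    have h := hRH Z (max lo (min hi (t Y))) (max lo (min hi (t Z))) (by omega) (by omega) (by omega)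
    refine le_trans (Finset.card_le_card ?_) (h.trans (Finset.card_le_card ?_))
    · intro m hm
      simp only [Finset.mem_filter] at hm ⊢
      have hxm := hx m (Finset.mem_union_right _ hm.1)
      refine ⟨hm.1, ?_⟩
      split_ifs with hc
      · have := hm.2 Y (by rw [hc]; exact Finset.ne_of_mem_erase hYm)
        omega
      · have := hm.2 Z (Ne.symm hc)
        omega
    · intro p hp
      simp only [Finset.mem_filter] at hp ⊢
      have hxp := hx p (Finset.mem_union_left _ hp.1)
      refine ⟨hp.1, ?_⟩
      have h2 := hp.2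
      split_ifs at h2 with hc
      · rw [hc]; omega
      · have := hY (col p) (Finset.mem_erase.mpr ⟨hc, Finset.mem_univ _⟩)
        omega
  · intro t
    obtain ⟨Z, -, hZ⟩ := Finset.exists_min_image (univ : Finset (Fin 3)) t ⟨0, by simp⟩
    obtain ⟨Y, hYm, hY⟩ := Finset.exists_min_image (univ.erase Z : Finset (Fin 3)) t (by
      obtain ⟨U, W, _, hU, _⟩ := two_others Z
      exact ⟨U, by simp [hU]⟩)
    have hYZ : t Z ≤ t Y := hZ Y (by simp)
    have h := hLH Z (min (hi - 1) (max (lo - 1) (t Y))) (min (hi - 1) (max (lo - 1) (t Z)))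
      (by omega) (by omega) (by omega)
    refine le_trans (Finset.card_le_card ?_) (h.trans (Finset.card_le_card ?_))
    · intro m hm
      simp only [Finset.mem_filter] at hm ⊢
      have hxm := hx m (Finset.mem_union_right _ hm.1)
      refine ⟨hm.1, ?_⟩
      split_ifs with hc
      · have := hm.2 Y (by rw [hc]; exact Finset.ne_of_mem_erase hYm)
        omega
      · have := hm.2 Z (Ne.symm hc)
        omega
    · intro p hp
      simp only [Finset.mem_filter] at hp ⊢
      have hxp := hx p (Finset.mem_union_left _ hp.1)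
      refine ⟨hp.1, ?_⟩
      have h2 := hp.2
      split_ifs at h2 with hc
      · rw [hc]; omega
      · have := hY (col p) (Finset.mem_erase.mpr ⟨hc, Finset.mem_univ _⟩)
        omega

end RD
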