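import Mathlib

/-!
# Colourful regression depth in the plane: common combinatorial definitions

The circle of directions is discretised as `ℤ / 2N`; positions are integers `x` with `0 ≤ x < 2N`,
the antipode of `x` is `x ± N`.  A *closed arc* is given by integers `l, s` with
`0 ≤ l < 2N`, `l ≤ s < l + N` (so it never contains two antipodal positions).

Elements `e : E` have a colour `col e : Fin 3` and a position `pos e : Option ℤ`;
`none` means that the vector is zero (a joker).
-/

namespace RD

/-- The position `x ∈ [0, 2N)` lies on the closed arc `[l, s]`, `0 ≤ l < 2N`, `l ≤ s < l + N`. -/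
def Mem (N l s x : ℤ) : Prop := (l ≤ x ∧ x ≤ s) ∨ (l ≤ x + 2 * N ∧ x + 2 * N ≤ s)

instance (N l s x : ℤ) : Decidable (Mem N l s x) := by unfold Mem; infer_instance

/-- The antipode of a position. -/
def anti (N x : ℤ) : ℤ := if x < N then x + N else x - N

/-- Three positions in increasing order which surround the centre (in the closed sense). -/
def Surr (N x y z : ℤ) : Prop := x ≤ y ∧ y ≤ z ∧ y - x ≤ N ∧ z - y ≤ N ∧ N ≤ z - x

/-- Three positions surround the centre (in the closed sense). -/
def Good (N x y z : ℤ) : Prop :=
  Surr N x y z ∨ Surr N x z y ∨ Surr N y x z ∨ Surr N y z x ∨ Surr N z x y ∨ Surr N z y x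

/-- Three vectors, some of them possibly zero (`none`), surround the centre. -/
def GoodO (N : ℤ) (a b c : Option ℤ) : Prop :=
  a = none ∨ b = none ∨ c = none ∨
    ∃ x y z, a = some x ∧ b = some y ∧ c = some z ∧ Good N x y z

/-- Contribution of an element of colour `k` at position `p` to `σ_c [l, s]`. -/
def ctr (N : ℤ) (c : Fin 3) (l s : ℤ) (k : Fin 3) : Option ℤ → ℤ
  | none => if k = c then -1 else 0
  | some x => if k = c then (if Mem N l s (anti N x) then -1 else 0)
      else (if Mem N l s x then 1 else 0)

variable {E : Type*}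

/-- `σ_c [l, s]` = number of non-zero elements of the two other colours on the arc, minus the
number of elements of colour `c` which are zero or antipodal to the arc. -/
def sig (N : ℤ) (col : E → Fin 3) (pos : E → Option ℤ) (S : Finset E) (c : Fin 3) (l s : ℤ) : ℤ :=
  ∑ e ∈ S, ctr N c l s (col e) (pos e)

/-- `(l, s)` is a closed arc shorter than a half circle. -/
def Arc (N l s : ℤ) : Prop := 0 ≤ l ∧ l < 2 * N ∧ l ≤ s ∧ s < l + N

/-- The Hall condition: no arc is a violator. -/
def Hall (N : ℤ) (col : E → Fin 3) (pos : E → Option ℤ) (S : Finset E) (r : ℕ) : Prop :=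
  ∀ c l s, Arc N l s → sig N col pos S c l s ≤ r

/-- every colour class of `S` has exactly `r` elements -/
def Bal (col : E → Fin 3) (S : Finset E) (r : ℕ) : Prop :=
  ∀ c, (S.filter (fun e => col e = c)).card = r

/-- positions are in `[0, 2N)` -/
def InRange (N : ℤ) (pos : E → Option ℤ) : Prop := ∀ e x, pos e = some x → 0 ≤ x ∧ x < 2 * N

/-- A perfect matching of `S` into surrounding rainbow triples. -/
def HasPM (N : ℤ) (col : E → Fin 3) (pos : E → Option ℤ) (S : Finset E) (r : ℕ) : Prop :=
  ∃ T : Fin r → Fin 3 → E, (∀ i c, T i c ∈ S) ∧ (∀ i c, col (T i c) = c) ∧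
    (∀ c, Function.Injective fun i => T i c) ∧
    ∀ i, GoodO N (pos (T i 0)) (pos (T i 1)) (pos (T i 2))

end RD
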