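import Mathlib
import Pool.Agent.Helper48.RD.Defs

/-!
# Angles
-/

namespace RD

open Finset

/-- Extending finitely many angles in `[0, π)` to a strictly monotone function on `ℤ` with
`ang (k + N) = ang k + π`. -/
theorem exists_ang {E : Type*} [Fintype E] [Nonempty E] (α : E → ℝ)
    (h0 : ∀ e, 0 ≤ α e) (h1 : ∀ e, α e < Real.pi) :
    ∃ (N : ℤ) (ang : ℤ → ℝ) (idx : E → ℤ), 0 < N ∧ StrictMono ang ∧
      (∀ k, ang (k + N) = ang k + Real.pi) ∧
      (∀ e, 0 ≤ idx e ∧ idx e < N ∧ ang (idx e) = α e) := by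
  classical
  set Λ : Finset ℝ := univ.image α with hΛ
  have hne : Λ.Nonempty := by
    obtain ⟨e⟩ := (inferInstance : Nonempty E)
    exact ⟨α e, Finset.mem_image_of_mem _ (Finset.mem_univ _)⟩
  have hpos : 0 < Λ.card := Finset.card_pos.mpr hne
  set n : ℕ := Λ.card with hn
  let o : Fin n ≃o Λ := Λ.orderIsoOfFin rfl
  have hmod : ∀ k : ℤ, (k % (n : ℤ)).toNat < n := by
    intro k
    have h2 := Int.emod_nonneg k (show (n : ℤ) ≠ 0 by omega)
    have h3 := Int.emod_lt_of_pos k (show (0 : ℤ) < n by omega)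
    omega
  let ang : ℤ → ℝ := fun k => (o ⟨(k % (n : ℤ)).toNat, hmod k⟩ : ℝ) + Real.pi * ((k / (n : ℤ) : ℤ) : ℝ)
  have hrange : ∀ z : Λ, 0 ≤ (z : ℝ) ∧ (z : ℝ) < Real.pi := by
    rintro ⟨z, hz⟩
    obtain ⟨e, _, rfl⟩ := Finset.mem_image.mp hz
    exact ⟨h0 e, h1 e⟩
  refine ⟨n, ang, fun e => ((o.symm ⟨α e, Finset.mem_image_of_mem _ (Finset.mem_univ _)⟩ : Fin n) : ℤ),
    by omega, ?_, ?_, ?_⟩
  · intro a b hab
    have hn0 : (0 : ℤ) < n := by omega
    have hdiv : a / (n : ℤ) ≤ b / (n : ℤ) := Int.ediv_le_ediv hn0 hab.le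
    rcases hdiv.lt_or_eq with h | h
    · have h2 := hrange (o ⟨(a % (n : ℤ)).toNat, hmod a⟩)
      have h3 := hrange (o ⟨(b % (n : ℤ)).toNat, hmod b⟩)
      have h4 : ((a / (n : ℤ) : ℤ) : ℝ) + 1 ≤ ((b / (n : ℤ) : ℤ) : ℝ) := by
        exact_mod_cast h
      have h5 : Real.pi * (((a / (n : ℤ) : ℤ) : ℝ) + 1) ≤ Real.pi * ((b / (n : ℤ) : ℤ) : ℝ) :=
        mul_le_mul_of_nonneg_left h4 Real.pi_pos.le
      show (o ⟨(a % (n : ℤ)).toNat, hmod a⟩ : ℝ) + Real.pi * ((a / (n : ℤ) : ℤ) : ℝ) <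
        (o ⟨(b % (n : ℤ)).toNat, hmod b⟩ : ℝ) + Real.pi * ((b / (n : ℤ) : ℤ) : ℝ)
      nlinarith [h2.1, h2.2, h3.1, h3.2, h5]
    · have ha := Int.emod_add_mul_ediv a n
      have hb := Int.emod_add_mul_ediv b n
      have hlt : a % (n : ℤ) < b % (n : ℤ) := by
        rw [h] at ha
        omega
      have h2 := Int.emod_nonneg a (show (n : ℤ) ≠ 0 by omega)
      have h3 : (⟨(a % (n : ℤ)).toNat, hmod a⟩ : Fin n) < ⟨(b % (n : ℤ)).toNat, hmod b⟩ := by
        rw [Fin.mk_lt_mk]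
        omega
      have h4 := o.strictMono h3
      have h5 : (o ⟨(a % (n : ℤ)).toNat, hmod a⟩ : ℝ) < (o ⟨(b % (n : ℤ)).toNat, hmod b⟩ : ℝ) := h4
      show (o ⟨(a % (n : ℤ)).toNat, hmod a⟩ : ℝ) + Real.pi * ((a / (n : ℤ) : ℤ) : ℝ) <
        (o ⟨(b % (n : ℤ)).toNat, hmod b⟩ : ℝ) + Real.pi * ((b / (n : ℤ) : ℤ) : ℝ)
      rw [h]
      linarith
  · intro k
    show (o ⟨((k + (n : ℤ)) % (n : ℤ)).toNat, hmod (k + n)⟩ : ℝ) +
        Real.pi * (((k + n) / (n : ℤ) : ℤ) : ℝ) =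
      (o ⟨(k % (n : ℤ)).toNat, hmod k⟩ : ℝ) + Real.pi * ((k / (n : ℤ) : ℤ) : ℝ) + Real.pi
    have h2 : (k + (n : ℤ)) % (n : ℤ) = k % n := Int.add_emod_right k n
    have h3 : (k + (n : ℤ)) / (n : ℤ) = k / n + 1 := by
      rw [Int.add_ediv_of_dvd_right (dvd_refl _), Int.ediv_self (by omega)]
    simp only [h2, h3]
    push_cast
    ring
  · intro e
    set i : Fin n := o.symm ⟨α e, Finset.mem_image_of_mem _ (Finset.mem_univ _)⟩ with hi
    have hi1 : (i : ℕ) < n := i.2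
    refine ⟨by show (0 : ℤ) ≤ ((i : ℕ) : ℤ); omega, by show ((i : ℕ) : ℤ) < n; omega, ?_⟩
    show (o ⟨(((i : ℕ) : ℤ) % (n : ℤ)).toNat, hmod _⟩ : ℝ) +
      Real.pi * ((((i : ℕ) : ℤ) / (n : ℤ) : ℤ) : ℝ) = α e
    have h2 : ((i : ℕ) : ℤ) % (n : ℤ) = (i : ℕ) := Int.emod_eq_of_lt (by omega) (by omega)
    have h3 : ((i : ℕ) : ℤ) / (n : ℤ) = 0 := Int.ediv_eq_zero_of_lt (by omega) (by omega)
    have h4 : (⟨(((i : ℕ) : ℤ) % (n : ℤ)).toNat, hmod _⟩ : Fin n) = i := by
      ext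
      simp only [h2]
      omega
    rw [h4, h3, hi]
    simp

section surround

variable {N : ℤ} {ang : ℤ → ℝ}

theorem ang_le_of_le (hmono : StrictMono ang) (hang : ∀ k, ang (k + N) = ang k + Real.pi)
    {x y : ℤ} (h : y - x ≤ N) : ang y - ang x ≤ Real.pi := by
  have h1 : ang y ≤ ang (x + N) := hmono.monotone (by omega)
  rw [hang] at h1
  linarith

theorem ang_ge_of_ge (hmono : StrictMono ang) (hang : ∀ k, ang (k + N) = ang k + Real.pi)
    {x y : ℤ} (h : N ≤ y - x) : Real.pi ≤ ang y - ang x := by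
  have h1 : ang (x + N) ≤ ang y := hmono.monotone (by omega)
  rw [hang] at h1
  linarith

/-- three surrounding angles: every direction has non-negative scalar product with one of them -/
theorem surround_real {a b c : ℝ} (hab : a ≤ b) (hbc : b ≤ c) (h1 : b - a ≤ Real.pi)
    (h2 : c - b ≤ Real.pi) (h3 : Real.pi ≤ c - a) (v w : ℝ) :
    0 ≤ Real.cos a * v + Real.sin a * w ∨ 0 ≤ Real.cos b * v + Real.sin b * w ∨
      0 ≤ Real.cos c * v + Real.sin c * w := by
  by_contra hcon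
  push Not at hcon
  obtain ⟨ha, hb, hc⟩ := hcon
  have hid : Real.sin (c - b) * (Real.cos a * v + Real.sin a * w) +
      Real.sin (a - c) * (Real.cos b * v + Real.sin b * w) +
      Real.sin (b - a) * (Real.cos c * v + Real.sin c * w) = 0 := by
    rw [Real.sin_sub, Real.sin_sub, Real.sin_sub]
    ring
  have s1 : 0 ≤ Real.sin (c - b) := Real.sin_nonneg_of_nonneg_of_le_pi (by linarith) h2
  have s2 : 0 ≤ Real.sin (b - a) := Real.sin_nonneg_of_nonneg_of_le_pi (by linarith) h1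
  have s3 : 0 ≤ Real.sin (a - c) := by
    have : Real.sin (a - c) = Real.sin (a - c + 2 * Real.pi) := (Real.sin_add_two_pi _).symm
    rw [this]
    exact Real.sin_nonneg_of_nonneg_of_le_pi (by linarith) (by linarith)
  have z1 : Real.sin (c - b) = 0 := by
    by_contra h
    have : 0 < Real.sin (c - b) := lt_of_le_of_ne s1 (Ne.symm h)
    nlinarith [mul_neg_of_pos_of_neg this ha, mul_nonneg s3 (neg_nonneg.mpr hb.le),
      mul_nonneg s2 (neg_nonneg.mpr hc.le)]
  have z2 : Real.sin (b - a) = 0 := by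
    by_contra h
    have : 0 < Real.sin (b - a) := lt_of_le_of_ne s2 (Ne.symm h)
    nlinarith [mul_neg_of_pos_of_neg this hc, mul_nonneg s3 (neg_nonneg.mpr hb.le),
      mul_nonneg s1 (neg_nonneg.mpr ha.le)]
  -- one of the gaps is `π`
  have hgap : ∀ x y : ℝ, y - x = Real.pi → (Real.cos x * v + Real.sin x * w) < 0 →
      (Real.cos y * v + Real.sin y * w) < 0 → False := by
    intro x y hxy hx hy
    have : y = x + Real.pi := by linarith
    rw [this, Real.cos_add_pi, Real.sin_add_pi] at hy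
    linarith
  rcases (h1.lt_or_eq) with h | h
  · -- b - a < π, so b = a
    have hba : b - a = 0 := by
      by_contra h'
      have : 0 < b - a := lt_of_le_of_ne (by linarith) (Ne.symm h')
      exact (Real.sin_pos_of_pos_of_lt_pi this h).ne' z2
    rcases (h2.lt_or_eq) with h4 | h4
    · have hcb : c - b = 0 := by
        by_contra h'
        have : 0 < c - b := lt_of_le_of_ne (by linarith) (Ne.symm h')
        exact (Real.sin_pos_of_pos_of_lt_pi this h4).ne' z1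
      have := Real.pi_pos
      linarith
    · exact hgap b c h4 hb hc
  · exact hgap a b h ha hb

theorem surr_real (hmono : StrictMono ang) (hang : ∀ k, ang (k + N) = ang k + Real.pi)
    {x y z : ℤ} (h : Surr N x y z) (v w : ℝ) :
    0 ≤ Real.cos (ang x) * v + Real.sin (ang x) * w ∨
      0 ≤ Real.cos (ang y) * v + Real.sin (ang y) * w ∨
      0 ≤ Real.cos (ang z) * v + Real.sin (ang z) * w := by
  obtain ⟨h1, h2, h3, h4, h5⟩ := h
  exact surround_real (hmono.monotone h1) (hmono.monotone h2) (ang_le_of_le hmono hang h3)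
    (ang_le_of_le hmono hang h4) (ang_ge_of_ge hmono hang h5) v w

theorem good_real (hmono : StrictMono ang) (hang : ∀ k, ang (k + N) = ang k + Real.pi)
    {x y z : ℤ} (h : Good N x y z) (v w : ℝ) :
    0 ≤ Real.cos (ang x) * v + Real.sin (ang x) * w ∨
      0 ≤ Real.cos (ang y) * v + Real.sin (ang y) * w ∨
      0 ≤ Real.cos (ang z) * v + Real.sin (ang z) * w := by
  rcases h with h | h | h | h | h | h <;> have := surr_real hmono hang h v w <;> tauto

end surround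

end RD
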