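import Mathlib
import Pool.Agent.Helper48.RD.Defs

/-!
# Shrinking a violating arc to occupied end points
-/

namespace RD

open Finset

variable {E : Type*}

/-- position `k` is occupied by an element of colour `≠ c` -/
def Occ (N : ℤ) (col : E → Fin 3) (pos : E → Option ℤ) (S : Finset E) (c : Fin 3) (k : ℤ) : Prop :=
  ∃ e ∈ S, col e ≠ c ∧ ∃ x, pos e = some x ∧ (k = x ∨ k = x + 2 * N)

theorem ctr_left {N : ℤ} (hN : 0 < N) {c k : Fin 3} {l s : ℤ} {p : Option ℤ}
    (hl0 : 0 ≤ l) (hl1 : l < 2 * N) (hls : l ≤ s) (hs : s < l + N)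
    (hp : ∀ x, p = some x → 0 ≤ x ∧ x < 2 * N)
    (h : k ≠ c → ∀ x, p = some x → l ≠ x) :
    ctr N c l s k p ≤ ctr N c (l + 1) s k p := by
  cases p with
  | none => simp [ctr]
  | some x =>
    have hx := hp x rfl
    have hh := fun hk => h hk x rfl
    simp only [ctr]
    by_cases hk : k = c
    · simp only [hk, if_true]
      unfold Mem anti
      split_ifs <;> omega
    · simp only [hk, if_false]
      have := hh hk
      unfold Mem
      split_ifs <;> omega

theorem ctr_shift {N : ℤ} (hN : 0 < N) {c k : Fin 3} {s : ℤ} {p : Option ℤ}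
    (hs : s < 3 * N) (hp : ∀ x, p = some x → 0 ≤ x ∧ x < 2 * N) :
    ctr N c (2 * N) s k p = ctr N c 0 (s - 2 * N) k p := by
  cases p with
  | none => simp [ctr]
  | some x =>
    have hx := hp x rfl
    simp only [ctr]
    by_cases hk : k = c
    · simp only [hk, if_true]
      unfold Mem anti
      split_ifs <;> omega
    · simp only [hk, if_false]
      unfold Mem
      split_ifs <;> omega

theorem ctr_right {N : ℤ} (hN : 0 < N) {c k : Fin 3} {l s : ℤ} {p : Option ℤ}
    (hl0 : 0 ≤ l) (hl1 : l < 2 * N) (hls : l ≤ s) (hs : s < l + N)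
    (hp : ∀ x, p = some x → 0 ≤ x ∧ x < 2 * N)
    (h : k ≠ c → ∀ x, p = some x → s ≠ x ∧ s ≠ x + 2 * N) :
    ctr N c l s k p ≤ ctr N c l (s - 1) k p := by
  cases p with
  | none => simp [ctr]
  | some x =>
    have hx := hp x rfl
    have hh := fun hk => h hk x rfl
    simp only [ctr]
    by_cases hk : k = c
    · simp only [hk, if_true]
      unfold Mem anti
      split_ifs <;> omega
    · simp only [hk, if_false]
      have := hh hk
      unfold Mem
      split_ifs <;> omega

/-- an arc with a single position -/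
theorem ctr_empty {N : ℤ} {c k : Fin 3} {l s : ℤ} {p : Option ℤ} (hls : s < l) :
    ctr N c l s k p ≤ 0 := by
  cases p with
  | none => simp only [ctr]; split_ifs <;> omega
  | some x =>
    simp only [ctr]
    unfold Mem
    split_ifs <;> omega

theorem shrink {N : ℤ} (hN : 0 < N) (col : E → Fin 3) (pos : E → Option ℤ) (S : Finset E)
    (hR : InRange N pos) (c : Fin 3) :
    ∀ (n : ℕ) (l s : ℤ), (s - l).toNat = n → Arc N l s → 1 ≤ sig N col pos S c l s →
      ∃ l' s', Arc N l' s' ∧ sig N col pos S c l s ≤ sig N col pos S c l' s' ∧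
        Occ N col pos S c l' ∧ Occ N col pos S c s' := by
  intro n
  induction n with
  | zero =>
    intro l s hn harc hsig
    obtain ⟨h0, h1, h2, h3⟩ := harc
    have hls : s = l := by omega
    by_cases hocc : Occ N col pos S c l
    · exact ⟨l, s, ⟨h0, h1, h2, h3⟩, le_rfl, hocc, hls ▸ hocc⟩
    · exfalso
      have : sig N col pos S c l s ≤ 0 := by
        unfold sig
        apply Finset.sum_nonpos
        intro e he
        refine (ctr_left hN h0 h1 h2 h3 (hR e) ?_).trans (ctr_empty (by omega))
        intro hk x hx hlx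
        exact hocc ⟨e, he, hk, x, hx, Or.inl hlx⟩
      omega
  | succ n ih =>
    intro l s hn harc hsig
    obtain ⟨h0, h1, h2, h3⟩ := harc
    by_cases hoccl : Occ N col pos S c l
    · by_cases hoccs : Occ N col pos S c s
      · exact ⟨l, s, ⟨h0, h1, h2, h3⟩, le_rfl, hoccl, hoccs⟩
      · have hle : sig N col pos S c l s ≤ sig N col pos S c l (s - 1) := by
          unfold sig
          apply Finset.sum_le_sum
          intro e he
          refine ctr_right hN h0 h1 h2 h3 (hR e) ?_
          intro hk x hx
          exact ⟨fun h => hoccs ⟨e, he, hk, x, hx, Or.inl h⟩,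
            fun h => hoccs ⟨e, he, hk, x, hx, Or.inr h⟩⟩
        obtain ⟨l', s', q1, q2, q3, q4⟩ := ih l (s - 1) (by omega) ⟨h0, h1, by omega, by omega⟩
          (by omega)
        exact ⟨l', s', q1, by omega, q3, q4⟩
    · have hle : sig N col pos S c l s ≤ sig N col pos S c (l + 1) s := by
        unfold sig
        apply Finset.sum_le_sum
        intro e he
        refine ctr_left hN h0 h1 h2 h3 (hR e) ?_
        intro hk x hx hlx
        exact hoccl ⟨e, he, hk, x, hx, Or.inl hlx⟩
      by_cases hl2 : l + 1 < 2 * N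
      · obtain ⟨l', s', q1, q2, q3, q4⟩ := ih (l + 1) s (by omega) ⟨by omega, hl2, by omega, by omega⟩
          (by omega)
        exact ⟨l', s', q1, by omega, q3, q4⟩
      · have hl3 : l + 1 = 2 * N := by omega
        have heq : sig N col pos S c (l + 1) s = sig N col pos S c 0 (s - 2 * N) := by
          unfold sig
          apply Finset.sum_congr rfl
          intro e _
          rw [hl3]
          exact ctr_shift hN (by omega) (hR e)
        obtain ⟨l', s', q1, q2, q3, q4⟩ := ih 0 (s - 2 * N) (by omega)
          ⟨le_rfl, by omega, by omega, by omega⟩ (by omega)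
        exact ⟨l', s', q1, by omega, q3, q4⟩

end RD
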