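import Mathlib
import Pool.Agent.Helper48.RD.Defs
import Pool.Agent.Helper48.RD.Geo1
import Pool.Agent.Helper48.RD.Shrink

/-!
# Lines in the plane: positions, far field, open sets of violators
-/

namespace RD

open Finset Topology

variable {E : Type*}

/-- signed distance from `q` to the line `e` -/
noncomputable def del (α c : E → ℝ) (q : ℝ × ℝ) (e : E) : ℝ :=
  c e - (q.1 * Real.cos (α e) + q.2 * Real.sin (α e))

/-- position of the direction from `q` to the line `e` -/
noncomputable def posq (α c : E → ℝ) (idx : E → ℤ) (N : ℤ) (q : ℝ × ℝ) (e : E) : Option ℤ :=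
  if 0 < del α c q e then some (idx e) else if del α c q e < 0 then some (idx e + N) else none

theorem continuous_del (α c : E → ℝ) (e : E) : Continuous (fun q => del α c q e) := by
  unfold del
  fun_prop

section

variable {α c : E → ℝ} {idx : E → ℤ} {N : ℤ}

theorem posq_range (hidx : ∀ e, 0 ≤ idx e ∧ idx e < N) (q : ℝ × ℝ) :
    InRange N (posq α c idx N q) := by
  intro e x hx
  have := hidx e
  unfold posq at hx
  split_ifs at hx with h1 h2
  · simp only [Option.some.injEq] at hx
    omega
  · simp only [Option.some.injEq] at hx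
    omega

theorem posq_stable {q0 : ℝ × ℝ} {e : E} {x : ℤ} (h : posq α c idx N q0 e = some x) :
    ∀ᶠ q in 𝓝 q0, posq α c idx N q e = some x := by
  have hcont := continuous_del α c e
  unfold posq at h
  split_ifs at h with h1 h2
  · have : ∀ᶠ q in 𝓝 q0, 0 < del α c q e := hcont.continuousAt.eventually_const_lt h1
    filter_upwards [this] with q hq
    unfold posq
    rw [if_pos hq]
    exact h
  · have : ∀ᶠ q in 𝓝 q0, del α c q e < 0 := hcont.continuousAt.eventually_lt_const h2
    filter_upwards [this] with q hq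
    unfold posq
    rw [if_neg (by linarith), if_pos hq]
    exact h

theorem posq_dir {ang : ℤ → ℝ} (hang : ∀ k, ang (k + N) = ang k + Real.pi)
    (hidx : ∀ e, ang (idx e) = α e) {q : ℝ × ℝ} {e : E} {x : ℤ}
    (h : posq α c idx N q e = some x) :
    (0 < del α c q e ∧ Real.cos (ang x) = Real.cos (α e) ∧ Real.sin (ang x) = Real.sin (α e)) ∨
    (del α c q e < 0 ∧ Real.cos (ang x) = - Real.cos (α e) ∧
      Real.sin (ang x) = - Real.sin (α e)) := by
  unfold posq at h
  split_ifs at h with h1 h2
  · simp only [Option.some.injEq] at h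
    left
    rw [← h, hidx]
    exact ⟨h1, rfl, rfl⟩
  · simp only [Option.some.injEq] at h
    right
    rw [← h, hang, hidx, Real.cos_add_pi, Real.sin_add_pi]
    exact ⟨h2, rfl, rfl⟩

theorem posq_none {q : ℝ × ℝ} {e : E} (h : posq α c idx N q e = none) : del α c q e = 0 := by
  unfold posq at h
  split_ifs at h with h1 h2
  exact le_antisymm (not_lt.mp h1) (not_lt.mp h2)

end

/-- Far away from the origin all directions lie in a closed half plane whose inner normal is
almost opposite to `q`. -/
theorem far_field [Fintype E] {α c : E → ℝ} (h0 : ∀ e, 0 ≤ α e) (h1 : ∀ e, α e < Real.pi)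
    {idx : E → ℤ} {N : ℤ} {ang : ℤ → ℝ} (hang : ∀ k, ang (k + N) = ang k + Real.pi)
    (hidx : ∀ e, ang (idx e) = α e) :
    ∃ R : ℝ, 0 < R ∧ ∀ q : ℝ × ℝ, R < max |q.1| |q.2| →
      ∃ v : ℝ × ℝ, 0 < q.1 * v.1 + q.2 * v.2 ∧
        ∀ e x, posq α c idx N q e = some x →
          Real.cos (ang x) * v.1 + Real.sin (ang x) * v.2 ≤ 0 := by
  classical
  obtain ⟨C, hC0, hC⟩ : ∃ C : ℝ, 0 < C ∧ ∀ e, |c e| < C := by
    refine ⟨∑ e, |c e| + 1, ?_, ?_⟩
    · have := Finset.sum_nonneg (fun (e : E) (_ : e ∈ univ) => abs_nonneg (c e))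
      linarith
    · intro e
      have := Finset.single_le_sum (f := fun e => |c e|) (fun e _ => abs_nonneg (c e))
        (Finset.mem_univ e)
      linarith
  obtain ⟨D, hD0, hD⟩ : ∃ D : ℝ, 0 < D ∧ ∀ e e', α e ≠ α e' → D ≤ |Real.sin (α e' - α e)| := by
    have hpos : ∀ p : E × E, α p.1 ≠ α p.2 → 0 < |Real.sin (α p.2 - α p.1)| := by
      rintro ⟨e, e'⟩ hne
      rw [abs_pos]
      intro hs
      have a1 := h0 e
      have a2 := h1 e
      have a3 := h0 e'
      have a4 := h1 e'
      have : α e' - α e = 0 := (Real.sin_eq_zero_iff_of_lt_of_lt (by linarith) (by linarith)).mp hs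
      exact hne (by simp only; linarith)
    rcases (univ.filter (fun p : E × E => α p.1 ≠ α p.2)).eq_empty_or_nonempty with hemp | hne
    · refine ⟨1, one_pos, ?_⟩
      intro e e' hne
      exfalso
      have : (e, e') ∈ univ.filter (fun p : E × E => α p.1 ≠ α p.2) := by simp [hne]
      rw [hemp] at this
      simp at this
    · obtain ⟨p, hp, hmin⟩ := Finset.exists_min_image _
        (fun p : E × E => |Real.sin (α p.2 - α p.1)|) hne
      refine ⟨|Real.sin (α p.2 - α p.1)|, hpos p (Finset.mem_filter.mp hp).2, ?_⟩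
      intro e e' hne'
      exact hmin (e, e') (by simp [hne'])
  refine ⟨2 * C / D + C + 1, by positivity, ?_⟩
  intro q hq
  set m := max |q.1| |q.2| with hm
  have hCD : 0 < 2 * C / D := by positivity
  have hmC : C < m := by linarith
  have hnorm : C ^ 2 < q.1 ^ 2 + q.2 ^ 2 := by
    have h3 : m ^ 2 ≤ q.1 ^ 2 + q.2 ^ 2 := by
      rcases max_choice |q.1| |q.2| with h | h
      · rw [hm, h, sq_abs]; nlinarith [sq_nonneg q.2]
      · rw [hm, h, sq_abs]; nlinarith [sq_nonneg q.1]
    nlinarith
  -- two critical lines are parallel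
  have hpar : ∀ e e', |q.1 * Real.cos (α e) + q.2 * Real.sin (α e)| ≤ C →
      |q.1 * Real.cos (α e') + q.2 * Real.sin (α e')| ≤ C → α e = α e' := by
    intro e e' he he'
    by_contra hne
    have hd := hD e e' hne
    set a := q.1 * Real.cos (α e) + q.2 * Real.sin (α e) with ha
    set b := q.1 * Real.cos (α e') + q.2 * Real.sin (α e') with hb
    have i1 : q.1 * Real.sin (α e' - α e) = a * Real.sin (α e') - b * Real.sin (α e) := by
      rw [Real.sin_sub, ha, hb]; ring
    have i2 : q.2 * Real.sin (α e' - α e) = - a * Real.cos (α e') + b * Real.cos (α e) := by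
      rw [Real.sin_sub, ha, hb]; ring
    have b1 : |q.1| * |Real.sin (α e' - α e)| ≤ 2 * C := by
      rw [← abs_mul, i1]
      calc |a * Real.sin (α e') - b * Real.sin (α e)| ≤ |a * Real.sin (α e')| + |b * Real.sin (α e)| :=
            abs_sub _ _
        _ ≤ C * 1 + C * 1 := by
            rw [abs_mul, abs_mul]
            exact add_le_add (mul_le_mul he (Real.abs_sin_le_one _) (abs_nonneg _) hC0.le)
              (mul_le_mul he' (Real.abs_sin_le_one _) (abs_nonneg _) hC0.le)
        _ = 2 * C := by ring
    have b2 : |q.2| * |Real.sin (α e' - α e)| ≤ 2 * C := by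
      rw [← abs_mul, i2]
      calc |-a * Real.cos (α e') + b * Real.cos (α e)| ≤ |-a * Real.cos (α e')| + |b * Real.cos (α e)| :=
            abs_add_le _ _
        _ ≤ C * 1 + C * 1 := by
            rw [abs_mul, abs_mul, abs_neg]
            exact add_le_add (mul_le_mul he (Real.abs_cos_le_one _) (abs_nonneg _) hC0.le)
              (mul_le_mul he' (Real.abs_cos_le_one _) (abs_nonneg _) hC0.le)
        _ = 2 * C := by ring
    have b3 : m * D ≤ 2 * C := by
      rcases max_choice |q.1| |q.2| with h | h
      · rw [hm, h]; exact (mul_le_mul_of_nonneg_left hd (abs_nonneg _)).trans b1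
      · rw [hm, h]; exact (mul_le_mul_of_nonneg_left hd (abs_nonneg _)).trans b2
    have b4 : m ≤ 2 * C / D := by rw [le_div_iff₀ hD0]; exact b3
    linarith
  -- non critical lines
  have hnon : ∀ e x, posq α c idx N q e = some x →
      C < |q.1 * Real.cos (α e) + q.2 * Real.sin (α e)| →
      Real.cos (ang x) * q.1 + Real.sin (ang x) * q.2 < - C := by
    intro e x hx hcr
    have hce := abs_lt.mp (hC e)
    rcases posq_dir hang hidx hx with ⟨hd, h2, h3⟩ | ⟨hd, h2, h3⟩
    · unfold del at hd
      rw [h2, h3]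
      rcases lt_abs.mp hcr with h4 | h4
      · exfalso; linarith
      · linarith
    · unfold del at hd
      rw [h2, h3]
      rcases lt_abs.mp hcr with h4 | h4
      · linarith
      · exfalso; linarith
  by_cases hcrit : ∃ e0, |q.1 * Real.cos (α e0) + q.2 * Real.sin (α e0)| ≤ C
  · obtain ⟨e0, he0⟩ := hcrit
    set a := q.1 * Real.cos (α e0) + q.2 * Real.sin (α e0) with ha
    have hcs := Real.sin_sq_add_cos_sq (α e0)
    refine ⟨(q.1 - a * Real.cos (α e0), q.2 - a * Real.sin (α e0)), ?_, ?_⟩
    · simp only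
      have h5 : q.1 * (q.1 - a * Real.cos (α e0)) + q.2 * (q.2 - a * Real.sin (α e0)) =
          q.1 ^ 2 + q.2 ^ 2 - a ^ 2 := by rw [ha]; ring
      rw [h5]
      have h6 : a ^ 2 ≤ C ^ 2 := by
        rw [← sq_abs]; exact pow_le_pow_left₀ (abs_nonneg _) he0 2
      linarith
    · intro e x hx
      simp only
      by_cases hcr : |q.1 * Real.cos (α e) + q.2 * Real.sin (α e)| ≤ C
      · have hae := hpar e e0 hcr he0
        rcases posq_dir hang hidx hx with ⟨hd, h2, h3⟩ | ⟨hd, h2, h3⟩
        · rw [h2, h3, hae]
          have : Real.cos (α e0) * (q.1 - a * Real.cos (α e0)) +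
              Real.sin (α e0) * (q.2 - a * Real.sin (α e0)) =
              a - a * (Real.sin (α e0) ^ 2 + Real.cos (α e0) ^ 2) := by rw [ha]; ring
          rw [this, hcs]; linarith
        · rw [h2, h3, hae]
          have : -Real.cos (α e0) * (q.1 - a * Real.cos (α e0)) +
              -Real.sin (α e0) * (q.2 - a * Real.sin (α e0)) =
              - a + a * (Real.sin (α e0) ^ 2 + Real.cos (α e0) ^ 2) := by rw [ha]; ring
          rw [this, hcs]; linarith
      · push Not at hcr
        have h4 := hnon e x hx hcr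
        have h5 : Real.cos (ang x) * (q.1 - a * Real.cos (α e0)) +
            Real.sin (ang x) * (q.2 - a * Real.sin (α e0)) =
            Real.cos (ang x) * q.1 + Real.sin (ang x) * q.2 - a * Real.cos (ang x - α e0) := by
          rw [Real.cos_sub]; ring
        rw [h5]
        have h6 : |a * Real.cos (ang x - α e0)| ≤ C := by
          rw [abs_mul]
          calc |a| * |Real.cos (ang x - α e0)| ≤ C * 1 :=
                mul_le_mul he0 (Real.abs_cos_le_one _) (abs_nonneg _) hC0.le
            _ = C := mul_one C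
        have h7 := (abs_le.mp h6).1
        linarith
  · push Not at hcrit
    refine ⟨q, by nlinarith [sq_nonneg C], ?_⟩
    intro e x hx
    have := hnon e x hx (hcrit e)
    linarith

end RD
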