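import Mathlib
import Pool.Agent.Helper48.RD.Geo2
import Pool.Agent.Helper3.BallsMiranda

/-!
# Existence of a point without violators
-/

namespace RD

open Finset Topology

variable {E : Type*} [Fintype E] [DecidableEq E]

/-- violating arc with occupied end points -/
def Viol (col : E → Fin 3) (α c : E → ℝ) (idx : E → ℤ) (N : ℤ) (r : ℕ) (t : Fin 3 × ℤ × ℤ) :
    Set (ℝ × ℝ) :=
  {q | Occ N col (posq α c idx N q) univ t.1 t.2.1 ∧ Occ N col (posq α c idx N q) univ t.1 t.2.2 ∧
    (r : ℤ) + 1 ≤ sig N col (posq α c idx N q) univ t.1 t.2.1 t.2.2}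

theorem ctr_none_le (N : ℤ) (c : Fin 3) (l s : ℤ) (k : Fin 3) (p : Option ℤ) :
    ctr N c l s k none ≤ ctr N c l s k p := by
  cases p with
  | none => exact le_rfl
  | some x =>
    simp only [ctr]
    split_ifs <;> omega

theorem isOpen_viol (col : E → Fin 3) (α c : E → ℝ) (idx : E → ℤ) (N : ℤ) (r : ℕ)
    (t : Fin 3 × ℤ × ℤ) : IsOpen (Viol col α c idx N r t) := by
  rw [isOpen_iff_mem_nhds]
  rintro q0 ⟨⟨e1, h1, h1', x1, h1'', h1o⟩, ⟨e2, h2, h2', x2, h2'', h2o⟩, h3⟩
  have hsig : ∀ᶠ q in 𝓝 q0, ∀ e : E, ctr N t.1 t.2.1 t.2.2 (col e) (posq α c idx N q0 e) ≤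
      ctr N t.1 t.2.1 t.2.2 (col e) (posq α c idx N q e) := by
    rw [Filter.eventually_all]
    intro e
    rcases hp : posq α c idx N q0 e with _ | x
    · exact Filter.Eventually.of_forall (fun q => ctr_none_le _ _ _ _ _ _)
    · filter_upwards [posq_stable hp] with q hq
      rw [hq]
  filter_upwards [hsig, posq_stable h1'', posq_stable h2''] with q hq hq1 hq2
  refine ⟨⟨e1, h1, h1', x1, hq1, h1o⟩, ⟨e2, h2, h2', x2, hq2, h2o⟩, ?_⟩
  refine h3.trans ?_
  unfold sig
  exact Finset.sum_le_sum (fun e _ => hq e)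

/-- a continuous non-negative function which is positive exactly on the open set `O` -/
theorem exists_bump (O : Set (ℝ × ℝ)) (hO : IsOpen O) :
    ∃ f : ℝ × ℝ → ℝ, Continuous f ∧ (∀ q, 0 ≤ f q) ∧ ∀ q, 0 < f q ↔ q ∈ O := by
  by_cases h : (Oᶜ).Nonempty
  · refine ⟨fun q => Metric.infDist q Oᶜ, Metric.continuous_infDist_pt _,
      fun q => Metric.infDist_nonneg, ?_⟩
    intro q
    have := (hO.isClosed_compl).notMem_iff_infDist_pos h (x := q)
    rw [← this]
    simp
  · rw [Set.not_nonempty_iff_eq_empty] at h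
    refine ⟨fun _ => 1, continuous_const, fun _ => zero_le_one, ?_⟩
    intro q
    have : O = Set.univ := by rwa [Set.compl_empty_iff] at h
    simp [this]

/-- the purely topological part -/
theorem topo {T : Type*} [DecidableEq T] (S : Finset T) (V : T → Set (ℝ × ℝ))
    (hV : ∀ t, IsOpen (V t)) (a b : T → ℝ)
    (hne : ∀ q, ∃ t ∈ S, q ∈ V t)
    (hkey : ∀ q, ∀ I : Finset T, I ⊆ S → I.Nonempty → (∀ t ∈ I, q ∈ V t) → ∀ μ : T → ℝ,
      (∀ t ∈ I, 0 < μ t) → ∑ t ∈ I, μ t * a t = 0 → ∑ t ∈ I, μ t * b t = 0 → False)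
    (R : ℝ) (hR : 0 < R)
    (hfar : ∀ q : ℝ × ℝ, R < max |q.1| |q.2| → ∃ v : ℝ × ℝ, 0 < q.1 * v.1 + q.2 * v.2 ∧
      ∀ t ∈ S, q ∈ V t → a t * v.1 + b t * v.2 ≤ 0) : False := by
  classical
  choose f hfc hf0 hfp using fun t => exists_bump (V t) (hV t)
  -- the field
  let w1 : ℝ × ℝ → ℝ := fun q => ∑ t ∈ S, f t q * a t
  let w2 : ℝ × ℝ → ℝ := fun q => ∑ t ∈ S, f t q * b t
  have hw1c : Continuous w1 := continuous_finset_sum _ (fun t _ => (hfc t).mul continuous_const)
  have hw2c : Continuous w2 := continuous_finset_sum _ (fun t _ => (hfc t).mul continuous_const)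
  have hrestrict : ∀ q, ∀ g : T → ℝ, ∑ t ∈ S, f t q * g t =
      ∑ t ∈ S.filter (fun t => q ∈ V t), f t q * g t := by
    intro q g
    rw [Finset.sum_filter]
    refine Finset.sum_congr rfl ?_
    intro t _
    by_cases h : q ∈ V t
    · rw [if_pos h]
    · rw [if_neg h]
      have : f t q = 0 := by
        have h1 := hf0 t q
        have h2 := (hfp t q).not.mpr h
        linarith [not_lt.mp h2]
      rw [this, zero_mul]
  have hw0 : ∀ q, w1 q = 0 → w2 q = 0 → False := by
    intro q h1 h2
    refine hkey q (S.filter (fun t => q ∈ V t)) (Finset.filter_subset _ _) ?_ ?_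
      (fun t => f t q) ?_ ?_ ?_
    · obtain ⟨t, ht, hqt⟩ := hne q
      exact ⟨t, Finset.mem_filter.mpr ⟨ht, hqt⟩⟩
    · intro t ht
      exact (Finset.mem_filter.mp ht).2
    · intro t ht
      exact (hfp t q).mpr (Finset.mem_filter.mp ht).2
    · rw [← hrestrict]; exact h1
    · rw [← hrestrict]; exact h2
  have hwfar : ∀ q : ℝ × ℝ, R < max |q.1| |q.2| → ∀ lam : ℝ, 0 < lam → w1 q = lam * q.1 →
      w2 q = lam * q.2 → False := by
    intro q hq lam hlam h1 h2
    obtain ⟨v, hv, hvt⟩ := hfar q hq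
    have h3 : w1 q * v.1 + w2 q * v.2 ≤ 0 := by
      have : w1 q * v.1 + w2 q * v.2 = ∑ t ∈ S, f t q * (a t * v.1 + b t * v.2) := by
        simp only [w1, w2]
        rw [Finset.sum_mul, Finset.sum_mul, ← Finset.sum_add_distrib]
        refine Finset.sum_congr rfl ?_
        intro t _
        ring
      rw [this]
      apply Finset.sum_nonpos
      intro t ht
      by_cases h : q ∈ V t
      · exact mul_nonpos_of_nonneg_of_nonpos (hf0 t q) (hvt t ht h)
      · have : f t q = 0 := by
          have h1 := hf0 t q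
          have h2 := (hfp t q).not.mpr h
          linarith [not_lt.mp h2]
        rw [this, zero_mul]
    rw [h1, h2] at h3
    have : lam * q.1 * v.1 + lam * q.2 * v.2 = lam * (q.1 * v.1 + q.2 * v.2) := by ring
    rw [this] at h3
    have := mul_pos hlam hv
    linarith
  -- Miranda
  let χ : ℝ × ℝ → ℝ := fun q => max 0 ((max |q.1| |q.2| - R) / R)
  have hχc : Continuous χ := by
    refine continuous_const.max ?_
    refine Continuous.div_const ?_ _
    exact ((continuous_fst.abs).max (continuous_snd.abs)).sub continuous_const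
  let F : ℝ × ℝ → ℝ := fun q => χ q * q.1 - (1 - χ q) * w1 q
  let G : ℝ × ℝ → ℝ := fun q => χ q * q.2 - (1 - χ q) * w2 q
  have hFc : Continuous F := (hχc.mul continuous_fst).sub ((continuous_const.sub hχc).mul hw1c)
  have hGc : Continuous G := (hχc.mul continuous_snd).sub ((continuous_const.sub hχc).mul hw2c)
  have hχ1 : ∀ q : ℝ × ℝ, max |q.1| |q.2| = 2 * R → χ q = 1 := by
    intro q hq
    simp only [χ]
    rw [hq]
    have : (2 * R - R) / R = 1 := by field_simp; ring
    rw [this]
    exact max_eq_right zero_le_one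
  obtain ⟨q, hq, hF0, hG0⟩ := Pool.Agent.Helper3.Balls.miranda F G (a := -(2 * R)) (b := 2 * R)
    (c := -(2 * R)) (d := 2 * R) (by linarith) (by linarith) hFc.continuousOn hGc.continuousOn
    (by
      intro y hy
      have h1 : χ (-(2 * R), y) = 1 := by
        apply hχ1
        simp only
        rw [abs_neg, abs_of_pos (by linarith : (0 : ℝ) < 2 * R)]
        exact max_eq_left (abs_le.mpr ⟨hy.1, hy.2⟩)
      simp only [F]
      rw [h1]
      linarith)
    (by
      intro y hy
      have h1 : χ (2 * R, y) = 1 := by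
        apply hχ1
        simp only
        rw [abs_of_pos (by linarith : (0 : ℝ) < 2 * R)]
        exact max_eq_left (abs_le.mpr ⟨hy.1, hy.2⟩)
      simp only [F]
      rw [h1]
      linarith)
    (by
      intro y hy
      have h1 : χ (y, -(2 * R)) = 1 := by
        apply hχ1
        simp only
        rw [abs_neg, abs_of_pos (by linarith : (0 : ℝ) < 2 * R)]
        exact max_eq_right (abs_le.mpr ⟨hy.1, hy.2⟩)
      simp only [G]
      rw [h1]
      linarith)
    (by
      intro y hy
      have h1 : χ (y, 2 * R) = 1 := by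
        apply hχ1
        simp only
        rw [abs_of_pos (by linarith : (0 : ℝ) < 2 * R)]
        exact max_eq_right (abs_le.mpr ⟨hy.1, hy.2⟩)
      simp only [G]
      rw [h1]
      linarith)
  have hq1 : |q.1| ≤ 2 * R := abs_le.mpr ⟨hq.1.1, hq.1.2⟩
  have hq2 : |q.2| ≤ 2 * R := abs_le.mpr ⟨hq.2.1, hq.2.2⟩
  have hm : max |q.1| |q.2| ≤ 2 * R := max_le hq1 hq2
  simp only [F] at hF0
  simp only [G] at hG0
  by_cases hle : max |q.1| |q.2| ≤ R
  · have hχ0 : χ q = 0 := by
      simp only [χ]
      apply max_eq_left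
      apply div_nonpos_of_nonpos_of_nonneg (by linarith) hR.le
    rw [hχ0] at hF0 hG0
    exact hw0 q (by linarith) (by linarith)
  · push Not at hle
    have hχv : χ q = (max |q.1| |q.2| - R) / R := by
      simp only [χ]
      apply max_eq_right
      exact div_nonneg (by linarith) hR.le
    have hχpos : 0 < χ q := by
      rw [hχv]; exact div_pos (by linarith) hR
    rcases hm.lt_or_eq with h | h
    · have hχlt : χ q < 1 := by
        rw [hχv, div_lt_one hR]; linarith
      have h1 : 0 < 1 - χ q := by linarith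
      refine hwfar q hle (χ q / (1 - χ q)) (div_pos hχpos h1) ?_ ?_
      · rw [div_mul_eq_mul_div, eq_div_iff h1.ne']
        linarith
      · rw [div_mul_eq_mul_div, eq_div_iff h1.ne']
        linarith
    · have h1 := hχ1 q h
      rw [h1] at hF0 hG0
      have h2 : q.1 = 0 := by linarith
      have h3 : q.2 = 0 := by linarith
      rw [h2, h3] at h
      simp at h
      linarith

end RD
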