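import Mathlib
import Pool.Agent.Helper48.RD.Topo
import Pool.Agent.Helper17.RD.Key
import Pool.Agent.Helper45.RD.Joker
import Pool.Agent.Helper45.RD.Tight

/-!
# The planar theorem in normal form
-/

namespace RD

open Finset Topology

theorem occ_arc {E : Type*} {N : ℤ} {col : E → Fin 3} {pos : E → Option ℤ}
    {S : Finset E} {c : Fin 3} {k : ℤ} {ang : ℤ → ℝ}
    (hang : ∀ k, ang (k + N) = ang k + Real.pi) (h : Occ N col pos S c k) :
    ∃ e x, pos e = some x ∧ Real.cos (ang k) = Real.cos (ang x) ∧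
      Real.sin (ang k) = Real.sin (ang x) := by
  obtain ⟨e, _, _, x, hx, hk⟩ := h
  refine ⟨e, x, hx, ?_⟩
  rcases hk with rfl | rfl
  · exact ⟨rfl, rfl⟩
  · have : ang (x + 2 * N) = ang x + 2 * Real.pi := by
      have h1 : x + 2 * N = (x + N) + N := by ring
      rw [h1, hang, hang]; ring
    rw [this, Real.cos_add_two_pi, Real.sin_add_two_pi]
    exact ⟨rfl, rfl⟩

theorem main_normal (r : ℕ) (hr : 0 < r) (α c : Fin 3 × Fin r → ℝ) (h0 : ∀ e, 0 ≤ α e)
    (h1 : ∀ e, α e < Real.pi) :
    ∃ q : ℝ × ℝ, ∃ σ : Fin 3 → Equiv.Perm (Fin r), ∀ j : Fin r, ∀ v w : ℝ, ∃ i : Fin 3,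
      0 ≤ del α c q (i, σ i j) *
        (Real.cos (α (i, σ i j)) * v + Real.sin (α (i, σ i j)) * w) := by
  classical
  have : Nonempty (Fin r) := ⟨⟨0, hr⟩⟩
  obtain ⟨N, ang, idx, hN, hmono, hang, hidx⟩ := exists_ang α h0 h1
  have hidx1 : ∀ e, 0 ≤ idx e ∧ idx e < N := fun e => ⟨(hidx e).1, (hidx e).2.1⟩
  have hidx2 : ∀ e, ang (idx e) = α e := fun e => (hidx e).2.2
  set col : Fin 3 × Fin r → Fin 3 := Prod.fst with hcol
  have hbal : Bal col univ r := by
    intro k
    have : (univ.filter (fun e : Fin 3 × Fin r => col e = k)) =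
        univ.map ⟨fun j : Fin r => (k, j), fun a b h => (Prod.mk.inj h).2⟩ := by
      ext ⟨a, b⟩
      simp only [hcol, Finset.mem_filter, Finset.mem_univ, true_and, Finset.mem_map,
        Function.Embedding.coeFn_mk, Prod.mk.injEq]
      constructor
      · intro h; exact ⟨b, h.symm, rfl⟩
      · rintro ⟨_, h, _⟩; exact h.symm
    rw [this, Finset.card_map, Finset.card_univ, Fintype.card_fin]
  by_contra hcon
  push Not at hcon
  -- Hall fails everywhere
  have hnoHall : ∀ q : ℝ × ℝ, ¬ Hall N col (posq α c idx N q) univ r := by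
    intro q hH
    obtain ⟨x, hx1, hx2, hx3⟩ := joker N hN col (posq α c idx N q) univ r
      (posq_range hidx1 q) hbal hH
    obtain ⟨T, _, hT2, hT3, hT4⟩ := hall_pm N hN col x univ r hx1 hbal hx3
    have hTi : ∀ k, Function.Bijective (fun j : Fin r => (T j k).2) := by
      intro k
      rw [Fintype.bijective_iff_injective_and_card]
      refine ⟨?_, rfl⟩
      intro a b hab
      apply hT3 k
      have e1 : (T a k).1 = k := hT2 a k
      have e2 : (T b k).1 = k := hT2 b k
      exact Prod.ext (e1.trans e2.symm) hab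
    obtain ⟨j, v, w, hj⟩ := hcon q (fun k => Equiv.ofBijective _ (hTi k))
    have hTj : ∀ k : Fin 3, (k, (T j k).2) = T j k := by
      intro k
      have e1 : (T j k).1 = k := hT2 j k
      exact Prod.ext e1.symm rfl
    have hj' : ∀ k : Fin 3, del α c q (T j k) *
        (Real.cos (α (T j k)) * v + Real.sin (α (T j k)) * w) < 0 := by
      intro k
      have := hj k
      simp only [Equiv.ofBijective_apply] at this
      rw [hTj k] at this
      exact this
    -- no joker among the three
    have hsome : ∀ k : Fin 3, posq α c idx N q (T j k) = some (x (T j k)) := by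
      intro k
      rcases hp : posq α c idx N q (T j k) with _ | y
      · exfalso
        have := posq_none hp
        have h2 := hj' k
        rw [this, zero_mul] at h2
        exact lt_irrefl _ h2
      · rw [hx2 _ _ hp]
    have hdir : ∀ k : Fin 3, Real.cos (ang (x (T j k))) * v + Real.sin (ang (x (T j k))) * w < 0 := by
      intro k
      have h2 := hj' k
      rcases posq_dir hang hidx2 (hsome k) with ⟨h3, h4, h5⟩ | ⟨h3, h4, h5⟩
      · rw [h4, h5]
        by_contra h6
        push Not at h6
        have := mul_nonneg h3.le h6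
        linarith
      · rw [h4, h5]
        by_contra h6
        push Not at h6
        have h7 : Real.cos (α (T j k)) * v + Real.sin (α (T j k)) * w ≤ 0 := by linarith
        have := mul_nonneg_of_nonpos_of_nonpos h3.le h7
        linarith
    have hg : Good N (x (T j 0)) (x (T j 1)) (x (T j 2)) := by
      rcases hT4 j with h | h | h | ⟨a, b, d, ha, hb, hd, hg⟩
      · simp at h
      · simp at h
      · simp at h
      · simp only [Option.some.injEq] at ha hb hd
        rw [ha, hb, hd]
        exact hg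
    rcases good_real hmono hang hg v w with h | h | h
    · linarith [hdir 0]
    · linarith [hdir 1]
    · linarith [hdir 2]
  obtain ⟨R, hR, hfar⟩ := far_field (α := α) (c := c) h0 h1 hang hidx2
  refine topo (((univ : Finset (Fin 3)) ×ˢ (Finset.Ico (0 : ℤ) (2 * N) ×ˢ
    Finset.Ico (0 : ℤ) (3 * N))).filter (fun t => Arc N t.2.1 t.2.2))
    (Viol col α c idx N r) (isOpen_viol col α c idx N r)
    (fun t => Real.cos (ang t.2.1) + Real.cos (ang t.2.2))
    (fun t => Real.sin (ang t.2.1) + Real.sin (ang t.2.2)) ?_ ?_ R hR ?_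
  · intro q
    have hq := hnoHall q
    unfold Hall at hq
    push Not at hq
    obtain ⟨k, l, s, harc, hs⟩ := hq
    obtain ⟨l', s', g1, g2, g3, g4⟩ := shrink hN col (posq α c idx N q) univ
      (posq_range hidx1 q) k _ l s rfl harc (by omega)
    refine ⟨(k, l', s'), ?_, g3, g4, by simp only; omega⟩
    obtain ⟨b1, b2, b3, b4⟩ := g1
    simp only [Finset.mem_filter, Finset.mem_product, Finset.mem_univ, Finset.mem_Ico, true_and]
    exact ⟨⟨⟨b1, b2⟩, by omega, by omega⟩, b1, b2, b3, b4⟩
  · intro q I hIS hIne hIV μ hμ hc hs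
    exact key N hN col (posq α c idx N q) univ r (posq_range hidx1 q) hbal ang hmono hang I
      (fun t ht => ⟨(Finset.mem_filter.mp (hIS ht)).2, (hIV t ht).2.2⟩) hIne μ hμ hc hs
  · intro q hq
    obtain ⟨v, hv, hvx⟩ := hfar q hq
    refine ⟨v, hv, ?_⟩
    rintro t _ ⟨ho1, ho2, _⟩
    obtain ⟨e1, x1, hx1, hc1, hs1⟩ := occ_arc hang ho1
    obtain ⟨e2, x2, hx2, hc2, hs2⟩ := occ_arc hang ho2
    have k1 := hvx e1 x1 hx1
    have k2 := hvx e2 x2 hx2
    rw [hc1, hc2, hs1, hs2]
    linarith

end RD
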